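import Pool.Agent.H81Sel.Sieg

/-! Block matrices of any size. -/

namespace SelAvg.FF

open WeierstrassCurve WithZero Filter Topology Matrix
open scoped Classical ENNReal

variable {R S : Type} [CommRing R] [CommRing S] {n : ℕ}

/-- the scalar matrices -/
def scN (n : ℕ) : Rˣ →* GL (Fin n) R := GeneralLinearGroup.scalar (Fin n)

lemma scN_val (t : Rˣ) : (scN n t : GL (Fin n) R).1 = (t : R) • (1 : Matrix (Fin n) (Fin n) R) := by
  change Matrix.scalar (Fin n) (t : R) = _
  rw [scalar_apply, smul_one_eq_diagonal]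

lemma scN_comm (t : Rˣ) (g : GL (Fin n) R) : scN n t * g = g * scN n t :=
  GeneralLinearGroup.scalar_commute t g

lemma det_scN (t : Rˣ) : GeneralLinearGroup.det (scN n t) = t ^ n := by
  rw [scN, GeneralLinearGroup.det_scalar, Fintype.card_fin]

lemma map_scN (φ : R →+* S) (t : Rˣ) :
    GeneralLinearGroup.map φ (scN n t) = scN n (Units.map (φ : R →* S) t) :=
  GeneralLinearGroup.map_scalar φ t

lemma scN_mul_val (t : Rˣ) (g : GL (Fin n) R) : (scN n t * g).1 = (t : R) • g.1 := by
  rw [Units.val_mul, scN_val, smul_mul_assoc, one_mul]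

/-- the matrix `[[g, 0], [r, z]]` -/
def blkM (g : Matrix (Fin n) (Fin n) R) (z : R) (r : Fin n → R) :
    Matrix (Fin (n + 1)) (Fin (n + 1)) R :=
  Matrix.of fun i j => Fin.lastCases (motive := fun _ => R)
    (Fin.lastCases (motive := fun _ => R) z r j)
    (fun i' => Fin.lastCases (motive := fun _ => R) 0 (g i') j) i

@[simp] lemma blkM_cc (g : Matrix (Fin n) (Fin n) R) (z : R) (r : Fin n → R) (i j : Fin n) :
    blkM g z r i.castSucc j.castSucc = g i j := by simp [blkM]

@[simp] lemma blkM_cl (g : Matrix (Fin n) (Fin n) R) (z : R) (r : Fin n → R) (i : Fin n) :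
    blkM g z r i.castSucc (Fin.last n) = 0 := by simp [blkM]

@[simp] lemma blkM_lc (g : Matrix (Fin n) (Fin n) R) (z : R) (r : Fin n → R) (j : Fin n) :
    blkM g z r (Fin.last n) j.castSucc = r j := by simp [blkM]

@[simp] lemma blkM_ll (g : Matrix (Fin n) (Fin n) R) (z : R) (r : Fin n → R) :
    blkM g z r (Fin.last n) (Fin.last n) = z := by simp [blkM]

lemma blkM_ext {M M' : Matrix (Fin (n + 1)) (Fin (n + 1)) R}
    (h1 : ∀ i j : Fin n, M i.castSucc j.castSucc = M' i.castSucc j.castSucc)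
    (h2 : ∀ i : Fin n, M i.castSucc (Fin.last n) = M' i.castSucc (Fin.last n))
    (h3 : ∀ j : Fin n, M (Fin.last n) j.castSucc = M' (Fin.last n) j.castSucc)
    (h4 : M (Fin.last n) (Fin.last n) = M' (Fin.last n) (Fin.last n)) : M = M' := by
  ext i j
  induction i using Fin.lastCases <;> induction j using Fin.lastCases
  exacts [h4, h3 _, h2 _, h1 _ _]

lemma blkM_mul (g' g : Matrix (Fin n) (Fin n) R) (z' z : R) (r' r : Fin n → R) :
    blkM g' z' r' * blkM g z r = blkM (g' * g) (z' * z) (r' ᵥ* g + z' • r) := by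
  refine blkM_ext (fun i j => ?_) (fun i => ?_) (fun j => ?_) ?_ <;>
    simp [Matrix.mul_apply, Fin.sum_univ_castSucc, vecMul, dotProduct]

lemma blkM_one : blkM (1 : Matrix (Fin n) (Fin n) R) 1 0 = 1 := by
  refine blkM_ext (fun i j => ?_) (fun i => ?_) (fun j => ?_) ?_ <;>
    simp [Matrix.one_apply, (Fin.castSucc_lt_last _).ne, (Fin.castSucc_lt_last _).ne']

lemma det_blkM (g : Matrix (Fin n) (Fin n) R) (z : R) (r : Fin n → R) :
    (blkM g z r).det = g.det * z := by
  rw [det_succ_column _ (Fin.last n), Fin.sum_univ_castSucc]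
  have h : (blkM g z r).submatrix Fin.castSucc Fin.castSucc = g := by
    ext i j
    simp
  simp [h, ← two_mul, mul_comm]

lemma blkM_mulVec_c (g : Matrix (Fin n) (Fin n) R) (z : R) (r : Fin n → R) (a : Fin (n + 1) → R)
    (i : Fin n) : (blkM g z r *ᵥ a) i.castSucc = (g *ᵥ fun j => a j.castSucc) i := by
  simp [mulVec, dotProduct, Fin.sum_univ_castSucc]

lemma blkM_mulVec_l (g : Matrix (Fin n) (Fin n) R) (z : R) (r : Fin n → R) (a : Fin (n + 1) → R) :
    (blkM g z r *ᵥ a) (Fin.last n) = (r ⬝ᵥ fun j => a j.castSucc) + z * a (Fin.last n) := by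
  simp [mulVec, dotProduct, Fin.sum_univ_castSucc]

/-- the block matrix `[[g, 0], [z η, z]]` -/
noncomputable def blkN (g : GL (Fin n) R) (z : Rˣ) (η : Fin n → R) : GL (Fin (n + 1)) R :=
  GeneralLinearGroup.mk'' (blkM g.1 z ((z : R) • η)) (by
    rw [det_blkM]
    exact (GeneralLinearGroup.det g * z).isUnit)

lemma blkN_val (g : GL (Fin n) R) (z : Rˣ) (η : Fin n → R) :
    (blkN g z η).1 = blkM g.1 z ((z : R) • η) := rfl

lemma det_blkN (g : GL (Fin n) R) (z : Rˣ) (η : Fin n → R) :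
    GeneralLinearGroup.det (blkN g z η) = GeneralLinearGroup.det g * z :=
  Units.ext (det_blkM _ _ _)

lemma blkN_mul (g' g : GL (Fin n) R) (z' z : Rˣ) (η' η : Fin n → R) :
    blkN g' z' η' * blkN g z η = blkN (g' * g) (z' * z) (η + ((z⁻¹ : Rˣ) : R) • η' ᵥ* g.1) := by
  refine Units.ext ?_
  rw [Units.val_mul, blkN_val, blkN_val, blkN_val, blkM_mul, Units.val_mul, Units.val_mul, smul_add,
    smul_smul, smul_smul, mul_assoc, Units.mul_inv, mul_one, smul_vecMul,
    add_comm ((z' : R) • η' ᵥ* g.1)]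

lemma blkN_one : blkN (1 : GL (Fin n) R) 1 0 = 1 := by
  refine Units.ext ?_
  rw [blkN_val, smul_zero]
  exact blkM_one

lemma blkN_inv (g : GL (Fin n) R) (z : Rˣ) (η : Fin n → R) :
    (blkN g z η)⁻¹ = blkN g⁻¹ z⁻¹ (-((z : R) • η ᵥ* (g⁻¹).1)) := by
  rw [inv_eq_iff_mul_eq_one, blkN_mul, inv_inv, mul_inv_cancel, mul_inv_cancel, neg_add_cancel,
    blkN_one]

lemma blkN_inj {g g' : GL (Fin n) R} {z z' : Rˣ} {η η' : Fin n → R}
    (h : blkN g z η = blkN g' z' η') : g = g' ∧ z = z' ∧ η = η' := by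
  have h1 : blkM g.1 z ((z : R) • η) = blkM g'.1 z' ((z' : R) • η') := congrArg Units.val h
  have h2 : z = z' := Units.ext (by simpa using congrFun (congrFun h1 (Fin.last n)) (Fin.last n))
  subst h2
  refine ⟨Units.ext (Matrix.ext fun i j => ?_), rfl, funext fun j => ?_⟩
  · simpa using congrFun (congrFun h1 i.castSucc) j.castSucc
  · simpa using congrFun (congrFun h1 (Fin.last n)) j.castSucc

lemma map_blkN (φ : R →+* S) (g : GL (Fin n) R) (z : Rˣ) (η : Fin n → R) :
    GeneralLinearGroup.map φ (blkN g z η) =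
      blkN (GeneralLinearGroup.map φ g) (Units.map (φ : R →* S) z) fun i => φ (η i) := by
  refine Units.ext ?_
  change (blkM g.1 z ((z : R) • η)).map φ = blkM (g.1.map φ) (φ z) (φ z • fun i => φ (η i))
  refine blkM_ext (fun i j => ?_) (fun i => ?_) (fun j => ?_) ?_ <;> simp

lemma scN_succ (t : Rˣ) : scN (n + 1) t = blkN (scN n t) t 0 := by
  refine Units.ext ?_
  rw [blkN_val, scN_val, scN_val, smul_zero]
  refine blkM_ext (fun i j => ?_) (fun i => ?_) (fun j => ?_) ?_ <;>
    simp [Matrix.one_apply, (Fin.castSucc_lt_last _).ne, (Fin.castSucc_lt_last _).ne']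

lemma scN_mul_blkN (t : Rˣ) (g : GL (Fin n) R) (z : Rˣ) (η : Fin n → R) :
    scN (n + 1) t * blkN g z η = blkN (scN n t * g) (t * z) η := by
  rw [scN_succ, blkN_mul, zero_vecMul, smul_zero, add_zero]

lemma exists_eq_blkN {g : GL (Fin (n + 1)) R} (h0 : ∀ i : Fin n, g.1 i.castSucc (Fin.last n) = 0) :
    ∃ g' z η, g = blkN g' z η := by
  have h1 : g.1 = blkM (g.1.submatrix Fin.castSucc Fin.castSucc) (g.1 (Fin.last n) (Fin.last n))
      fun j => g.1 (Fin.last n) j.castSucc := by
    refine blkM_ext (fun i j => ?_) (fun i => ?_) (fun j => ?_) ?_ <;> simp [h0]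
  have hd := (GeneralLinearGroup.det g).isUnit
  rw [GeneralLinearGroup.val_det_apply, h1, det_blkM] at hd
  obtain ⟨z, hz⟩ := isUnit_of_mul_isUnit_right hd
  refine ⟨GeneralLinearGroup.mk'' _ (isUnit_of_mul_isUnit_left hd), z,
    ((z⁻¹ : Rˣ) : R) • fun j => g.1 (Fin.last n) j.castSucc, Units.ext ?_⟩
  rw [blkN_val, smul_smul, Units.mul_inv, one_smul, hz]
  exact h1

/-- the last basis vector -/
def eL (R : Type) [CommRing R] (n : ℕ) : Fin (n + 1) → R := Pi.single (Fin.last n) 1

lemma blkN_mulVec_eL (g : GL (Fin n) R) (z : Rˣ) (η : Fin n → R) :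
    (blkN g z η).1 *ᵥ eL R n = (z : R) • eL R n := by
  funext i
  rw [eL, mulVec_single_one, blkN_val]
  induction i using Fin.lastCases <;> simp [(Fin.castSucc_lt_last _).ne]

lemma mulVec_eL_eq_iff {g : GL (Fin (n + 1)) R} :
    g.1 *ᵥ eL R n = eL R n ↔ ∃ g' η, g = blkN g' 1 η := by
  constructor
  · intro h
    obtain ⟨g', z, η, rfl⟩ := exists_eq_blkN (g := g) fun i => by
      have h1 := congrFun h i.castSucc
      rw [eL, mulVec_single_one] at h1
      simpa [(Fin.castSucc_lt_last _).ne] using h1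
    have h1 := congrFun h (Fin.last n)
    rw [blkN_mulVec_eL] at h1
    have h2 : z = 1 := Units.ext (by simpa [eL] using h1)
    exact ⟨g', η, by rw [h2]⟩
  · rintro ⟨g', η, rfl⟩
    rw [blkN_mulVec_eL, Units.val_one, one_smul]

/-- Clearing a column over a valued field. -/
lemma exists_clear {K Γ : Type} [Field K] [LinearOrderedCommGroupWithZero Γ] (v : Valuation K Γ)
    (c : Fin (n + 1) → K) : ∃ k : Matrix (Fin (n + 1)) (Fin (n + 1)) K,
      (∀ i j, v (k i j) ≤ 1) ∧ v k.det = 1 ∧ ∀ i : Fin n, (k *ᵥ c) i.castSucc = 0 := by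
  obtain ⟨m, hm⟩ := Finite.exists_max fun i => v (c i)
  let σ := Equiv.swap m (Fin.last n)
  let k : Matrix (Fin (n + 1)) (Fin (n + 1)) K :=
    (blkM (1 : Matrix (Fin n) (Fin n) K) 1 fun i => -(c (σ i.castSucc) / c m))ᵀ
  refine ⟨k.submatrix id σ, fun i j => ?_, ?_, fun i => ?_⟩
  · change v (blkM (1 : Matrix (Fin n) (Fin n) K) 1 (fun i => -(c (σ i.castSucc) / c m)) (σ j) i) ≤ 1
    generalize σ j = j'
    induction i using Fin.lastCases <;> induction j' using Fin.lastCases
    · simp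
    · simp
    · rw [blkM_lc, Valuation.map_neg, map_div₀]
      exact div_le_one_of_le₀ (hm _) zero_le
    · rw [blkM_cc, Matrix.one_apply]
      split_ifs <;> simp
  · rw [det_permute', det_transpose, det_blkM, det_one, mul_one, mul_one]
    rcases Int.units_eq_one_or (Equiv.Perm.sign σ) with h | h <;> simp [h]
  · rw [submatrix_mulVec_equiv]
    have h2 : ∀ j, σ.symm j = σ j := fun j => by simp [σ]
    simp only [k, mulVec, dotProduct, Fin.sum_univ_castSucc, Function.comp, id, transpose_apply,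
      blkM_cc, blkM_lc, Matrix.one_apply, ite_mul, one_mul, zero_mul, Finset.sum_ite_eq',
      Finset.mem_univ, if_true, h2]
    by_cases h0 : c m = 0
    · have h3 := hm (σ i.castSucc)
      rw [h0, map_zero, le_zero_iff, map_eq_zero] at h3
      simp [h3]
    · have h3 : σ (Fin.last n) = m := by simp [σ]
      rw [h3]
      field_simp
      ring

/-- A nonzero vector over a field can be moved to the last basis vector. -/
lemma exists_mulVec_eL {K : Type} [Field K] {s : Fin (n + 1) → K} (hs : s ≠ 0) :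
    ∃ γ : GL (Fin (n + 1)) K, γ.1 *ᵥ s = eL K n := by
  obtain ⟨k, -, h1, h2⟩ := exists_clear (1 : Valuation K ℤᵐ⁰) s
  have h3 : k.det ≠ 0 := fun h => by simp [h] at h1
  let g := GeneralLinearGroup.mkOfDetNeZero k h3
  have h4 : (k *ᵥ s) (Fin.last n) ≠ 0 := fun h => hs (by
    have h5 : g.1 *ᵥ s = 0 := funext fun i => by
      induction i using Fin.lastCases
      exacts [h, h2 _]
    have h6 := congrArg (fun a => (g⁻¹).1 *ᵥ a) h5
    simpa only [mulVec_mulVec, ← Units.val_mul, inv_mul_cancel, Units.val_one, one_mulVec,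
      mulVec_zero] using h6)
  refine ⟨scN (n + 1) (Units.mk0 _ h4)⁻¹ * g, funext fun i => ?_⟩
  rw [scN_mul_val, smul_mulVec]
  change _ * (k *ᵥ s) i = _
  induction i using Fin.lastCases
  · simp [eL, h4]
  · simp [eL, h2, (Fin.castSucc_lt_last _).ne]

/-- the transpose -/
def trN (g : GL (Fin n) R) : GL (Fin n) R :=
  ⟨g.1ᵀ, (g⁻¹).1ᵀ, by rw [← transpose_mul, ← Units.val_mul, inv_mul_cancel, Units.val_one,
    transpose_one], by rw [← transpose_mul, ← Units.val_mul, mul_inv_cancel, Units.val_one,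
    transpose_one]⟩

lemma trN_val (g : GL (Fin n) R) : (trN g).1 = g.1ᵀ := rfl

lemma det_trN (g : GL (Fin n) R) : GeneralLinearGroup.det (trN g) = GeneralLinearGroup.det g :=
  Units.ext (det_transpose g.1)

end SelAvg.FF
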