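import Pool.Agent.H15G.BlkN

/-! Bundles of any rank as cosets, Iwasawa decomposition, sections, reduction. -/

namespace SelAvg.FF

open WeierstrassCurve WithZero Filter Topology Matrix
open scoped Classical ENNReal

variable {F : Type} [Field F] {n : ℕ}

variable (F) in
/-- the integral matrices -/
noncomputable def KN (n : ℕ) : Subgroup (GL (Fin n) (A F)) :=
  (GeneralLinearGroup.map (n := Fin n) (Oh F).subtype).range

variable (F) in
/-- bundles of rank `n` with a generic trivialisation -/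
abbrev XN (n : ℕ) : Type := RC (KN F n)

lemma KN_two : KN F 2 = K2 F := rfl

lemma mem_KN {k : GL (Fin n) (A F)} :
    k ∈ KN F n ↔ (∀ i j, k.1 i j ∈ Oh F) ∧ idiv (GeneralLinearGroup.det k) = 0 := by
  constructor
  · rintro ⟨k0, rfl⟩
    refine ⟨fun i j => (k0.1 i j).2, (idiv_eq_zero_iff _).2 ⟨GeneralLinearGroup.det k0, ?_⟩⟩
    refine Units.ext ?_
    rw [GeneralLinearGroup.val_det_apply]
    exact RingHom.map_det (Oh F).subtype k0.1
  · rintro ⟨h1, h2⟩
    obtain ⟨e, he⟩ := (idiv_eq_zero_iff _).1 h2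
    have hd : (Matrix.of fun i j => (⟨k.1 i j, h1 i j⟩ : Oh F)).det = e := by
      refine Subtype.ext ?_
      have h3 := RingHom.map_det (Oh F).subtype (Matrix.of fun i j => (⟨k.1 i j, h1 i j⟩ : Oh F))
      have h4 : ((e : Oh F) : A F) = k.1.det := congrArg Units.val he
      rw [h4]
      exact h3
    exact ⟨GeneralLinearGroup.mk'' _ (hd ▸ e.isUnit), Units.ext rfl⟩

lemma det_mem_Oh {k : Matrix (Fin n) (Fin n) (A F)} (h : ∀ i j, k i j ∈ Oh F) : k.det ∈ Oh F := by
  have h3 := RingHom.map_det (Oh F).subtype (Matrix.of fun i j => (⟨k i j, h i j⟩ : Oh F))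
  exact (show _ = k.det from h3) ▸ Subtype.property _

lemma trN_mem_KN {k : GL (Fin n) (A F)} (hk : k ∈ KN F n) : trN k ∈ KN F n :=
  mem_KN.2 ⟨fun i j => (mem_KN.1 hk).1 j i, by rw [det_trN]; exact (mem_KN.1 hk).2⟩

lemma blkN_mem_KN {g : GL (Fin n) (A F)} {z : (A F)ˣ} {η : Fin n → A F} :
    blkN g z η ∈ KN F (n + 1) ↔ g ∈ KN F n ∧ idiv z = 0 ∧ ∀ i, η i ∈ Oh F := by
  rw [mem_KN, mem_KN, det_blkN, idiv_mul, blkN_val]
  constructor
  · rintro ⟨h, h0⟩
    have h1 : ∀ i j, g.1 i j ∈ Oh F := fun i j => by simpa using h i.castSucc j.castSucc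
    have h2 : 0 ≤ idiv z := (unit_mem_Oh z).1 (by simpa using h (Fin.last n) (Fin.last n))
    have h3 : 0 ≤ idiv (GeneralLinearGroup.det g) := (unit_mem_Oh _).1 (det_mem_Oh h1)
    obtain ⟨h4, h5⟩ := (add_eq_zero_iff_of_nonneg h3 h2).1 h0
    refine ⟨⟨h1, h4⟩, h5, fun i => ?_⟩
    have h6 : (z : A F) * η i ∈ Oh F := by simpa using h (Fin.last n) i.castSucc
    rwa [← mem_AD_zero, unit_mul_mem_AD, h5, add_zero, mem_AD_zero] at h6
  · rintro ⟨⟨h1, h4⟩, h5, h6⟩
    have h2 := (unit_mem_Oh z).2 h5.ge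
    refine ⟨fun i j => ?_, by rw [h4, h5, add_zero]⟩
    induction i using Fin.lastCases <;> induction j using Fin.lastCases
    · simpa using h2
    · simpa using mul_mem h2 (h6 _)
    · simp
    · simpa using h1 _ _

lemma scN_mem_KN {t : (A F)ˣ} (h : idiv t = 0) : scN n t ∈ KN F n := by
  refine mem_KN.2 ⟨fun i j => ?_, by rw [det_scN, idiv_pow, h, smul_zero]⟩
  rw [scN_val, Matrix.smul_apply, Matrix.one_apply]
  split_ifs
  · simpa using (unit_mem_Oh t).2 h.ge
  · simp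

lemma iwn_clear (c : Fin (n + 1) → A F) :
    ∃ k ∈ KN F (n + 1), ∀ i : Fin n, (k.1 *ᵥ c) i.castSucc = 0 := by
  choose k h1 h2 h3 using fun v : Place F => exists_clear v.vc fun i => pr v (c i)
  choose M hM using fun i j => exists_adele (fun v => k v i j) (Eventually.of_forall fun v => h1 v i j)
  have h4 : ∀ v, (Matrix.of M).map (pr v) = k v := fun v => Matrix.ext fun i j => hM i j v
  have h5 : ∀ v : Place F, v.vc (pr v (Matrix.of M).det) = 1 := fun v => by
    rw [RingHom.map_det, RingHom.mapMatrix_apply, h4, h2]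
  have h6 : IsUnit (Matrix.of M).det := isUnit_of_forall
    (fun v h => by simpa [h] using h5 v) (Eventually.of_forall h5)
  refine ⟨GeneralLinearGroup.mk'' _ h6, mem_KN.2 ⟨fun i j => mem_Oh.2 fun v => ?_, ?_⟩,
    fun i => A_ext fun v => ?_⟩
  · change v.vc (pr v (M i j)) ≤ 1
    rw [hM]
    exact h1 v i j
  · ext v
    rw [idiv_apply]
    change -log (v.vc (pr v (Matrix.of M).det)) = 0
    simp [h5]
  · change pr v ((Matrix.of M *ᵥ c) i.castSucc) = pr v 0
    rw [RingHom.map_mulVec, h4, map_zero]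
    exact h3 v i

theorem exists_blkN (g : GL (Fin (n + 1)) (A F)) :
    ∃ k ∈ KN F (n + 1), ∃ g' Z η, g = k * blkN g' (piD Z) η := by
  obtain ⟨k, hk, h⟩ := iwn_clear fun i => g.1 i (Fin.last n)
  obtain ⟨g', z, η, e⟩ := exists_eq_blkN (g := k * g) h
  obtain ⟨u, hu, hu'⟩ := iwa_unit z
  refine ⟨k⁻¹ * blkN 1 u 0, mul_mem (inv_mem hk) (blkN_mem_KN.2 ⟨one_mem _, hu, fun _ => zero_mem _⟩),
    g', idiv z, η, ?_⟩
  rw [mul_assoc, blkN_mul, one_mul, ← hu', zero_vecMul, smul_zero, add_zero, ← e,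
    inv_mul_cancel_left]

lemma exists_mk_blkN (x : XN F (n + 1)) :
    ∃ g' Z η, x = RC.mk (KN F (n + 1)) (blkN g' (piD Z) η) := by
  obtain ⟨g, rfl⟩ := x.mk_surj
  obtain ⟨k, hk, g', Z, η, h⟩ := exists_blkN g
  exact ⟨g', Z, η, (RC.mk_eq.2 ⟨k, hk, h⟩).symm⟩

lemma RC.mk_eq' {Γ : Type} [Group Γ] {K : Subgroup Γ} {g g' : Γ} :
    RC.mk K g = RC.mk K g' ↔ g * g'⁻¹ ∈ K := by
  rw [eq_comm, RC.mk_eq]
  refine ⟨?_, fun h => ⟨_, h, by simp⟩⟩
  rintro ⟨k, hk, rfl⟩
  simpa using hk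

lemma mulVec_mem_Oh {k : GL (Fin n) (A F)} (hk : k ∈ KN F n) {a : Fin n → A F}
    (ha : ∀ i, a i ∈ Oh F) (i : Fin n) : (k.1 *ᵥ a) i ∈ Oh F := by
  simp only [mulVec, dotProduct]
  exact Subring.sum_mem _ fun j _ => mul_mem ((mem_KN.1 hk).1 i j) (ha j)

lemma mulVec_mem_Oh_iff {k : GL (Fin n) (A F)} (hk : k ∈ KN F n) (a : Fin n → A F) :
    (∀ i, (k.1 *ᵥ a) i ∈ Oh F) ↔ ∀ i, a i ∈ Oh F := by
  refine ⟨fun h i => ?_, fun h => mulVec_mem_Oh hk h⟩
  have h1 := mulVec_mem_Oh (inv_mem hk) h i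
  rwa [mulVec_mulVec, ← Units.val_mul, inv_mul_cancel, Units.val_one, one_mulVec] at h1

theorem blkN_eq_iff {g g' : GL (Fin n) (A F)} {z z' : (A F)ˣ} {η η' : Fin n → A F} :
    RC.mk (KN F (n + 1)) (blkN g z η) = RC.mk (KN F (n + 1)) (blkN g' z' η') ↔
      RC.mk (KN F n) g = RC.mk (KN F n) g' ∧ idiv z = idiv z' ∧
        ∀ i, (z : A F) * ((η - η') ᵥ* (g⁻¹).1) i ∈ Oh F := by
  rw [eq_comm, RC.mk_eq', blkN_inv, blkN_mul, blkN_mem_KN, ← RC.mk_eq', inv_inv, idiv_mul, idiv_inv,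
    eq_comm, add_neg_eq_zero, @eq_comm _ (idiv z')]
  refine and_congr_right fun _ => and_congr_right fun _ => forall_congr' fun i => ?_
  rw [← neg_mem_iff, sub_vecMul]
  simp only [Pi.add_apply, Pi.neg_apply, Pi.smul_apply, smul_eq_mul, Pi.sub_apply]
  ring_nf

/-- the quotient of rank `n` -/
noncomputable def quoN (x : XN F (n + 1)) : XN F n := RC.mk (KN F n) (exists_mk_blkN x).choose

/-- the line subbundle -/
noncomputable def subN (x : XN F (n + 1)) : Div F := (exists_mk_blkN x).choose_spec.choose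

lemma iwn_quo_sub (g : GL (Fin n) (A F)) (z : (A F)ˣ) (η : Fin n → A F) :
    RC.mk (KN F n) g = quoN (RC.mk (KN F (n + 1)) (blkN g z η)) ∧
      idiv z = subN (RC.mk (KN F (n + 1)) (blkN g z η)) := by
  obtain ⟨η', h⟩ := (exists_mk_blkN (RC.mk (KN F (n + 1)) (blkN g z η))).choose_spec.choose_spec
  obtain ⟨h1, h2, -⟩ := blkN_eq_iff.1 h
  exact ⟨h1, h2.trans (idiv_piD _)⟩

lemma quoN_mk (g : GL (Fin n) (A F)) (z : (A F)ˣ) (η : Fin n → A F) :
    quoN (RC.mk (KN F (n + 1)) (blkN g z η)) = RC.mk (KN F n) g := (iwn_quo_sub g z η).1.symm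

lemma subN_mk (g : GL (Fin n) (A F)) (z : (A F)ˣ) (η : Fin n → A F) :
    subN (RC.mk (KN F (n + 1)) (blkN g z η)) = idiv z := (iwn_quo_sub g z η).2.symm

/-- every class is a block over any representative of its quotient -/
lemma exists_mk_blkN' (x : XN F (n + 1)) {g : GL (Fin n) (A F)} (hg : RC.mk (KN F n) g = quoN x) :
    ∃ η, x = RC.mk (KN F (n + 1)) (blkN g (piD (subN x)) η) := by
  obtain ⟨g', Z, η, rfl⟩ := exists_mk_blkN x
  rw [quoN_mk] at hg
  refine ⟨η, blkN_eq_iff.2 ⟨hg.symm, ?_, fun i => ?_⟩⟩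
  · rw [subN_mk, idiv_piD, idiv_piD]
  · simp

/-- the lower triangular matrix with entries `ϖ^(D i) η i j` below the diagonal and `ϖ^(D i)` on
the diagonal -/
noncomputable def triN (D : Fin n → Div F) (η : Fin n → Fin n → A F) : GL (Fin n) (A F) :=
  GeneralLinearGroup.mk'' (Matrix.of fun i j =>
    if j < i then (piD (D i) : A F) * η i j else if j = i then (piD (D i) : A F) else 0) (by
      rw [det_of_isLowerTriangular _ fun i j (h : i < j) => by simp [h.not_gt, h.ne']]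
      simp only [Matrix.of_apply, lt_irrefl, if_false, if_true]
      exact IsUnit.prod_univ_iff.2 fun i => (piD (D i)).isUnit)

lemma triN_apply (D : Fin n → Div F) (η : Fin n → Fin n → A F) (i j : Fin n) : (triN D η).1 i j =
    if j < i then (piD (D i) : A F) * η i j else if j = i then (piD (D i) : A F) else 0 := rfl

lemma triN_succ (D : Fin (n + 1) → Div F) (η : Fin (n + 1) → Fin (n + 1) → A F) :
    triN D η = blkN (triN (fun i => D i.castSucc) fun i j => η i.castSucc j.castSucc)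
      (piD (D (Fin.last n))) fun j => η (Fin.last n) j.castSucc := by
  refine Units.ext ?_
  rw [blkN_val]
  refine blkM_ext (fun i j => ?_) (fun i => ?_) (fun j => ?_) ?_ <;>
    simp [triN_apply, (Fin.castSucc_lt_last _).ne', (Fin.castSucc_lt_last _).not_gt]

lemma blkN_triN (D : Fin n → Div F) (η : Fin n → Fin n → A F) (Z : Div F) (ζ : Fin n → A F) :
    ∃ η', blkN (triN D η) (piD Z) ζ = triN (Fin.snoc (α := fun _ => Div F) D Z) η' := by
  refine ⟨blkM (Matrix.of η) 0 ζ, ?_⟩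
  rw [triN_succ]
  simp

lemma piD_sum {ι : Type} (s : Finset ι) (D : ι → Div F) :
    piD (∑ i ∈ s, D i) = ∏ i ∈ s, piD (D i) := by
  induction s using Finset.induction_on with
  | empty => simp
  | insert a s ha ih => rw [Finset.sum_insert ha, Finset.prod_insert ha, piD_add, ih]

lemma det_triN (D : Fin n → Div F) (η : Fin n → Fin n → A F) :
    GeneralLinearGroup.det (triN D η) = piD (∑ i, D i) := by
  refine Units.ext ?_
  rw [GeneralLinearGroup.val_det_apply,
    det_of_isLowerTriangular _ fun i j (h : i < j) => by simp [triN_apply, h.not_gt, h.ne'],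
    piD_sum, Units.coe_prod]
  simp [triN_apply]

lemma triN_mulVec (D : Fin n → Div F) (η : Fin n → Fin n → A F) (a : Fin n → A F) (i : Fin n) :
    ((triN D η).1 *ᵥ a) i =
      (piD (D i) : A F) * (a i + ∑ j, if j < i then η i j * a j else 0) := by
  have h : ∀ j, (triN D η).1 i j * a j = (piD (D i) : A F) *
      ((if j = i then a j else 0) + if j < i then η i j * a j else 0) := fun j => by
    rw [triN_apply]
    by_cases h1 : j < i
    · simp [h1, h1.ne, mul_assoc]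
    · by_cases h2 : j = i <;> simp [h1, h2]
  simp only [mulVec, dotProduct, h]
  rw [← Finset.mul_sum, Finset.sum_add_distrib, Finset.sum_ite_eq']
  simp

lemma scN_mul_triN (E : Div F) (D : Fin n → Div F) (η : Fin n → Fin n → A F) :
    scN n (piD E) * triN D η = triN (fun i => D i + E) η := by
  refine Units.ext ?_
  rw [scN_mul_val]
  ext1 i j
  rw [Matrix.smul_apply, triN_apply, triN_apply, piD_add, Units.val_mul, smul_eq_mul]
  split_ifs <;> ring

theorem exists_triN (g : GL (Fin n) (A F)) : ∃ k ∈ KN F n, ∃ D η, g = k * triN D η := by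
  induction n with
  | zero => exact ⟨1, one_mem _, 0, 0, Units.ext (Subsingleton.elim _ _)⟩
  | succ n ih =>
    obtain ⟨k, hk, g', Z, ζ, rfl⟩ := exists_blkN g
    obtain ⟨k', hk', D, η, rfl⟩ := ih g'
    obtain ⟨η', h⟩ := blkN_triN D η Z ζ
    refine ⟨k * blkN k' 1 0, mul_mem hk (blkN_mem_KN.2 ⟨hk', idiv_one, fun _ => zero_mem _⟩),
      Fin.snoc (α := fun _ => Div F) D Z, η', ?_⟩
    rw [← h, mul_assoc, blkN_mul, one_mul, zero_vecMul, smul_zero, add_zero]

lemma exists_mk_triN (x : XN F n) : ∃ D η, x = RC.mk (KN F n) (triN D η) := by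
  obtain ⟨g, rfl⟩ := x.mk_surj
  obtain ⟨k, hk, D, η, h⟩ := exists_triN g
  exact ⟨D, η, (RC.mk_eq.2 ⟨k, hk, h⟩).symm⟩

/-- the divisors of the flag are determined by the class -/
theorem triN_eq {D D' : Fin n → Div F} {η η' : Fin n → Fin n → A F}
    (h : RC.mk (KN F n) (triN D η) = RC.mk (KN F n) (triN D' η')) : D = D' := by
  induction n with
  | zero => exact Subsingleton.elim _ _
  | succ n ih =>
    rw [triN_succ, triN_succ D', blkN_eq_iff, idiv_piD, idiv_piD] at h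
    funext i
    induction i using Fin.lastCases
    exacts [h.2.1, congrFun (ih h.1) _]

/-- the divisor of the determinant -/
noncomputable def detN (x : XN F n) : Div F := idiv (GeneralLinearGroup.det x.out)

lemma detN_mk (g : GL (Fin n) (A F)) :
    detN (RC.mk (KN F n) g) = idiv (GeneralLinearGroup.det g) := by
  obtain ⟨k, hk, h⟩ := RC.out_mk (K := KN F n) g
  rw [detN, h, map_mul, idiv_mul, (mem_KN.1 hk).2, zero_add]

lemma detN_triN (D : Fin n → Div F) (η : Fin n → Fin n → A F) :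
    detN (RC.mk (KN F n) (triN D η)) = ∑ i, D i := by
  rw [detN_mk, det_triN, idiv_piD]

lemma detN_eq (x : XN F (n + 1)) : detN x = detN (quoN x) + subN x := by
  obtain ⟨g, Z, η, rfl⟩ := exists_mk_blkN x
  rw [quoN_mk, subN_mk, detN_mk, detN_mk, det_blkN, idiv_mul]

/-- the twist by a divisor -/
noncomputable def twN (n : ℕ) (E : Div F) : Equiv.Perm (XN F n) :=
  RC.act (KN F n) (scN n (piD (-E)))

lemma twN_mk (E : Div F) (g : GL (Fin n) (A F)) :
    twN n E (RC.mk (KN F n) g) = RC.mk (KN F n) (scN n (piD E) * g) := by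
  rw [twN, RC.act_mk, ← map_inv, piD_neg, inv_inv, scN_comm]

lemma twN_triN (E : Div F) (D : Fin n → Div F) (η : Fin n → Fin n → A F) :
    twN n E (RC.mk (KN F n) (triN D η)) = RC.mk (KN F n) (triN (fun i => D i + E) η) := by
  rw [twN_mk, scN_mul_triN]

lemma twN_act (E : Div F) (γ : GL (Fin n) (A F)) (x : XN F n) :
    twN n E (RC.act (KN F n) γ x) = RC.act (KN F n) γ (twN n E x) := by
  obtain ⟨g, rfl⟩ := x.mk_surj
  rw [RC.act_mk, twN_mk, twN_mk, RC.act_mk, mul_assoc]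

lemma twN_add (E E' : Div F) (x : XN F n) : twN n (E + E') x = twN n E (twN n E' x) := by
  obtain ⟨g, rfl⟩ := x.mk_surj
  rw [twN_mk, twN_mk, twN_mk, piD_add, map_mul, mul_assoc]

lemma twN_zero (x : XN F n) : twN n 0 x = x := by
  obtain ⟨g, rfl⟩ := x.mk_surj
  rw [twN_mk, piD_zero, map_one, one_mul]

lemma detN_twN (E : Div F) (x : XN F n) : detN (twN n E x) = detN x + n • E := by
  obtain ⟨g, rfl⟩ := x.mk_surj
  rw [twN_mk, detN_mk, detN_mk, map_mul, idiv_mul, det_scN, idiv_pow, idiv_piD, add_comm]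

lemma quoN_twN (E : Div F) (x : XN F (n + 1)) : quoN (twN (n + 1) E x) = twN n E (quoN x) := by
  obtain ⟨g, Z, η, rfl⟩ := exists_mk_blkN x
  rw [twN_mk, scN_mul_blkN, quoN_mk, quoN_mk, twN_mk]

lemma subN_twN (E : Div F) (x : XN F (n + 1)) : subN (twN (n + 1) E x) = subN x + E := by
  obtain ⟨g, Z, η, rfl⟩ := exists_mk_blkN x
  rw [twN_mk, scN_mul_blkN, subN_mk, subN_mk, idiv_mul, idiv_piD, add_comm]

/-- a matrix as a linear automorphism -/
noncomputable def mvLN (g : GL (Fin n) (A F)) : (Fin n → A F) ≃ₗ[A F] (Fin n → A F) :=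
  (GeneralLinearGroup.toLin g).toLinearEquiv

lemma mvLN_apply (g : GL (Fin n) (A F)) (a : Fin n → A F) : mvLN g a = g.1 *ᵥ a := rfl

lemma mvLN_K {k : GL (Fin n) (A F)} (hk : k ∈ KN F n) (g : GL (Fin n) (A F)) (a : Fin n → A F) :
    (∀ i, mvLN (k * g) a i ∈ Oh F) ↔ ∀ i, mvLN g a i ∈ Oh F := by
  simp only [mvLN_apply, Units.val_mul, ← mulVec_mulVec]
  exact mulVec_mem_Oh_iff hk _

lemma mvLN_scN (u : (A F)ˣ) (g : GL (Fin n) (A F)) (a : Fin n → A F) (i : Fin n) :
    mvLN (scN n u * g) a i = (u : A F) * mvLN g a i := by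
  rw [mvLN_apply, mvLN_apply, scN_mul_val, smul_mulVec, Pi.smul_apply, smul_eq_mul]

variable [Cv F]

variable (F) in
/-- the diagonal embedding of matrices -/
noncomputable abbrev glAN (n : ℕ) : GL (Fin n) F →* GL (Fin n) (A F) :=
  GeneralLinearGroup.map (toA F)

variable (F) in
/-- change of the generic trivialisation -/
noncomputable def actN (n : ℕ) : GL (Fin n) F →* Equiv.Perm (XN F n) :=
  (RC.act (KN F n)).comp (glAN F n)

lemma actN_mk (γ : GL (Fin n) F) (g : GL (Fin n) (A F)) :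
    actN F n γ (RC.mk (KN F n) g) = RC.mk (KN F n) (g * (glAN F n γ)⁻¹) := rfl

lemma twN_actN (E : Div F) (γ : GL (Fin n) F) (x : XN F n) :
    twN n E (actN F n γ x) = actN F n γ (twN n E x) := twN_act E (glAN F n γ) x

/-- the degree -/
noncomputable def degN (x : XN F n) : ℤ := deg (detN x)

lemma detN_act (γ : GL (Fin n) F) (x : XN F n) :
    detN (actN F n γ x) = detN x - dv ((GeneralLinearGroup.det γ : Fˣ) : F) := by
  obtain ⟨g, rfl⟩ := x.mk_surj
  have h : GeneralLinearGroup.det (glAN F n γ) = uA (GeneralLinearGroup.det γ) :=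
    Units.ext (RingHom.map_det (toA F) γ.1).symm
  rw [actN_mk, detN_mk, detN_mk, map_mul, map_inv, idiv_mul, idiv_inv, h, idiv_uA, sub_eq_add_neg]

lemma degN_act (γ : GL (Fin n) F) (x : XN F n) : degN (actN F n γ x) = degN x := by
  rw [degN, degN, detN_act, map_sub, deg_dv, sub_zero]

lemma degN_triN (D : Fin n → Div F) (η : Fin n → Fin n → A F) :
    degN (RC.mk (KN F n) (triN D η)) = ∑ i, deg (D i) := by
  rw [degN, detN_triN, map_sum]

lemma degN_twN (E : Div F) (x : XN F n) : degN (twN n E x) = degN x + n * deg E := by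
  rw [degN, detN_twN, map_add, map_nsmul, nsmul_eq_mul, degN]

lemma degN_eq (x : XN F (n + 1)) : degN x = degN (quoN x) + deg (subN x) := by
  rw [degN, detN_eq, map_add, degN]

lemma actN_scN (u : Fˣ) (x : XN F n) : actN F n (scN n u) x = twN n (-dv (u : F)) x := by
  obtain ⟨g, rfl⟩ := x.mk_surj
  rw [actN_mk, twN_mk, map_scN, ← map_inv (scN n), ← scN_comm, RC.mk_eq', _root_.mul_inv_rev,
    mul_assoc, mul_inv_cancel_left, ← map_inv (scN n), ← map_mul]
  refine scN_mem_KN ?_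
  rw [idiv_mul, idiv_inv, idiv_inv, idiv_piD, neg_neg]
  exact neg_add_eq_zero.2 (idiv_uA u)

lemma actN_blkN (γ : GL (Fin n) F) (u : Fˣ) (y : Fin n → F) (g : GL (Fin n) (A F)) (z : (A F)ˣ)
    (η : Fin n → A F) : ∃ η', actN F (n + 1) (blkN γ u y) (RC.mk (KN F (n + 1)) (blkN g z η)) =
      RC.mk (KN F (n + 1)) (blkN (g * (glAN F n γ)⁻¹) (z * (uA u)⁻¹) η') :=
  ⟨_, by rw [actN_mk, map_blkN, blkN_inv, blkN_mul]⟩

lemma quoN_act (γ : GL (Fin n) F) (u : Fˣ) (y : Fin n → F) (x : XN F (n + 1)) :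
    quoN (actN F (n + 1) (blkN γ u y) x) = actN F n γ (quoN x) := by
  obtain ⟨g, Z, η, rfl⟩ := exists_mk_blkN x
  obtain ⟨η', h⟩ := actN_blkN γ u y g (piD Z) η
  rw [h, quoN_mk, quoN_mk, actN_mk]

lemma subN_act (γ : GL (Fin n) F) (u : Fˣ) (y : Fin n → F) (x : XN F (n + 1)) :
    subN (actN F (n + 1) (blkN γ u y) x) = subN x - dv (u : F) := by
  obtain ⟨g, Z, η, rfl⟩ := exists_mk_blkN x
  obtain ⟨η', h⟩ := actN_blkN γ u y g (piD Z) η
  rw [h, subN_mk, subN_mk, idiv_mul, idiv_inv, idiv_uA, sub_eq_add_neg]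

lemma dlg_mulVec (γ : GL (Fin n) F) (s : Fin n → F) : dlg (γ.1 *ᵥ s) = (glAN F n γ).1 *ᵥ dlg s :=
  funext fun i => RingHom.map_mulVec (toA F) γ.1 s i

lemma dlg_single (j : Fin n) : dlg (Pi.single j 1 : Fin n → F) = Pi.single j 1 := by
  funext l
  by_cases h : l = j
  · subst h; simp [dlg]
  · simp [dlg, Pi.single_eq_of_ne h]

/-- the global sections -/
noncomputable def H0N (x : XN F n) : Finset (Fin n → F) := hbox (mvLN x.out)

lemma H0N_mk (g : GL (Fin n) (A F)) : H0N (RC.mk (KN F n) g) = hbox (mvLN g) := by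
  obtain ⟨k, hk, e⟩ := RC.out_mk (K := KN F n) g
  ext x
  rw [H0N, e, mem_hbox, mem_hbox, mvLN_K hk]

lemma mem_H0N_act (γ : GL (Fin n) F) (x : XN F n) (s : Fin n → F) :
    γ.1 *ᵥ s ∈ H0N (actN F n γ x) ↔ s ∈ H0N x := by
  obtain ⟨g, rfl⟩ := x.mk_surj
  rw [actN_mk, H0N_mk, H0N_mk, mem_hbox, mem_hbox, dlg_mulVec, mvLN_apply, mvLN_apply,
    mulVec_mulVec, ← Units.val_mul, inv_mul_cancel_right]

theorem finite_stabN (x : XN F n) : {γ : GL (Fin n) F | actN F n γ x = x}.Finite := by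
  obtain ⟨g, rfl⟩ := x.mk_surj
  obtain ⟨E, -, hE⟩ := exists_mem_AD fun p : Fin n × Fin n => g.1 p.1 p.2
  have h1 : ∀ j : Fin n, (Pi.single j 1 : Fin n → F) ∈ H0N (twN n E (RC.mk (KN F n) g)) :=
    fun j => by
      rw [twN_mk, H0N_mk, mem_hbox]
      intro i
      rw [mvLN_scN, ← mem_AD_zero, unit_mul_mem_AD, idiv_piD, zero_add, dlg_single, mvLN_apply,
        mulVec_single_one]
      exact hE (i, j)
  refine Set.Finite.of_finite_image (f := fun γ j => γ.1 *ᵥ Pi.single j 1)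
    ((Set.Finite.pi' fun _ : Fin n => (H0N (twN n E (RC.mk (KN F n) g))).finite_toSet).subset ?_)
    fun γ _ γ' _ h => ?_
  · rintro _ ⟨γ, hγ, rfl⟩ j
    have h2 := (mem_H0N_act γ _ _).2 (h1 j)
    rw [← twN_actN, show actN F n γ (RC.mk (KN F n) g) = _ from hγ] at h2
    exact h2
  · refine Units.ext (Matrix.ext fun i j => ?_)
    have h2 := congrFun (congrFun h j) i
    simpa only [mulVec_single_one, Matrix.col_apply] using h2

theorem exists_bruN (n : ℕ) : ∃ ρ, IsBru (actN F n) ρ := exists_bru _ finite_stabN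

lemma mem_H0N_sub (x : XN F (n + 1)) : eL F n ∈ H0N x ↔ 0 ≤ subN x := by
  obtain ⟨g, Z, η, rfl⟩ := exists_mk_blkN x
  have h : dlg (eL F n) = eL (A F) n := dlg_single _
  rw [subN_mk, H0N_mk, mem_hbox, h, mvLN_apply, blkN_mulVec_eL, ← unit_mem_Oh, Fin.forall_fin_succ']
  simp [eL, (Fin.castSucc_lt_last _).ne]

lemma H0N_twN (g : GL (Fin n) (A F)) (m : ℕ) :
    H0N (twN n (m • PP F) (RC.mk (KN F n) g)) = hbox (tw1 (mvLN g) m) := by
  rw [twN_mk, H0N_mk]
  ext x
  rw [mem_hbox, mem_hbox]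
  refine forall_congr' fun i => ?_
  rw [mvLN_scN, tw1, LinearEquiv.trans_apply, wdg_apply, pow_one]

theorem NN_mvLN (g : GL (Fin n) (A F)) :
    NN (mvLN g) = qq F ^ (deg (idiv (GeneralLinearGroup.det g)) + n * cc F) := by
  obtain ⟨k, hk, D, η, rfl⟩ := exists_triN g
  rw [NN_congr (mvLN_K hk _), NN_tri (mvLN (triN D η)) D
    (fun i => ∑ j, if j < i then η i j • LinearMap.proj j else 0) ?_ ?_, map_mul, idiv_mul,
    (mem_KN.1 hk).2, det_triN, idiv_piD, zero_add, map_sum]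
  · intro i a a' h
    rw [LinearMap.sum_apply, LinearMap.sum_apply]
    refine Finset.sum_congr rfl fun j _ => ?_
    split_ifs with hj
    · simp [h j hj]
    · rfl
  · intro a i
    rw [mvLN_apply, triN_mulVec, LinearMap.sum_apply]
    congr 2
    refine Finset.sum_congr rfl fun j _ => ?_
    split_ifs <;> simp

/-- the inequality of Riemann -/
theorem exists_mem_H0N {x : XN F n} (h : 0 < degN x + n * cc F) : ∃ s ∈ H0N x, s ≠ 0 := by
  have h6 : (1 : ℝ) < (H0N x).card := by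
    refine lt_of_lt_of_le ?_ (NN_le_card (mvLN x.out))
    rw [NN_mvLN]
    exact one_lt_zpow₀ one_lt_qq h
  exact Finset.exists_mem_ne (Nat.one_lt_cast.1 h6) 0

lemma iwn_bdd (x : XN F n) : ∃ b : ℤ, ∀ E : Div F, (∃ s ∈ H0N (twN n (-E) x), s ≠ 0) → deg E ≤ b := by
  obtain ⟨g, rfl⟩ := x.mk_surj
  obtain ⟨B, -, hB⟩ := exists_bound (mvLN g).symm.toLinearMap
  refine ⟨deg B, fun E ⟨s, hs, hs0⟩ => ?_⟩
  rw [twN_mk, H0N_mk, mem_hbox] at hs
  have h1 := hB (-E) (mvLN g (dlg s)) fun i => by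
    have h2 := hs i
    rwa [mvLN_scN, ← mem_AD_zero, unit_mul_mem_AD, idiv_piD, zero_add] at h2
  by_contra h
  refine hs0 (funext fun i => eq_zero_of_deg_neg (D := -E + B) ?_ (toA_mem_AD.1 ?_))
  · rw [map_add, map_neg]
    linarith
  · simpa [dlg] using h1 i

lemma iwn_max (x : XN F (n + 1)) : ∃ γ : GL (Fin (n + 1)) F, ∀ (γ' : GL (Fin (n + 1)) F) (E : Div F),
    (∃ s ∈ H0N (twN (n + 1) (-E) (actN F (n + 1) γ' x)), s ≠ 0) →
      deg E ≤ deg (subN (actN F (n + 1) γ x)) := by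
  obtain ⟨b, hb⟩ := iwn_bdd x
  have h0 : eL F n ≠ 0 := fun h => by simpa [eL] using congrFun h (Fin.last n)
  obtain ⟨_, ⟨γ, rfl⟩, h⟩ := Int.exists_greatest_of_bdd
    (P := fun d => ∃ γ, deg (subN (actN F (n + 1) γ x)) = d) ⟨b, by
      rintro _ ⟨γ, rfl⟩
      refine hb _ ⟨(γ⁻¹).1 *ᵥ eL F n, ?_, fun h => h0 ?_⟩
      · rw [← mem_H0N_act γ, mulVec_mulVec, ← Units.val_mul, mul_inv_cancel, Units.val_one,
          one_mulVec, ← twN_actN, mem_H0N_sub, subN_twN, add_neg_cancel]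
      · have h1 := congrArg (fun a => γ.1 *ᵥ a) h
        simpa only [mulVec_mulVec, ← Units.val_mul, mul_inv_cancel, Units.val_one, one_mulVec,
          mulVec_zero] using h1⟩ ⟨_, 1, rfl⟩
  refine ⟨γ, fun γ' E ⟨s, hs, hs0⟩ => le_trans ?_ (h _ ⟨(exists_mulVec_eL hs0).choose * γ', rfl⟩)⟩
  have h1 := (mem_H0N_act (exists_mulVec_eL hs0).choose _ s).2 hs
  rw [(exists_mulVec_eL hs0).choose_spec, ← twN_actN, mem_H0N_sub, subN_twN] at h1
  have h2 := deg_nonneg h1
  rw [map_add, map_neg] at h2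
  rw [map_mul, Equiv.Perm.mul_apply]
  linarith

lemma iwn_pair (D : Fin (n + 2) → Div F) (η : Fin (n + 2) → Fin (n + 2) → A F)
    (h : 0 < deg (D (Fin.last n).castSucc) + deg (D (Fin.last (n + 1))) + 2 * cc F) :
    ∃ s ∈ H0N (RC.mk (KN F (n + 2)) (triN D η)), s ≠ 0 := by
  obtain ⟨s, hs, hs0⟩ := exists_mem_H0N (x := RC.mk (KN F 2) (triN
    ![D (Fin.last n).castSucc, D (Fin.last (n + 1))]
    fun _ _ => η (Fin.last (n + 1)) (Fin.last n).castSucc)) (by
      rw [degN_triN, Fin.sum_univ_two]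
      simpa using h)
  rw [H0N_mk, mem_hbox, Fin.forall_fin_two, mvLN_apply, triN_mulVec, triN_mulVec] at hs
  refine ⟨Fin.snoc (α := fun _ => F) (Fin.snoc (α := fun _ => F) 0 (s 0)) (s 1), ?_, fun h1 => hs0 ?_⟩
  · rw [H0N_mk, mem_hbox]
    intro i
    rw [mvLN_apply, triN_mulVec, Fin.sum_univ_castSucc, Fin.sum_univ_castSucc]
    induction i using Fin.lastCases with
    | last => simpa [dlg, Fin.sum_univ_two] using hs.2
    | cast i =>
      induction i using Fin.lastCases with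
      | last => simpa [dlg, Fin.sum_univ_two, (Fin.castSucc_lt_last _).not_gt] using hs.1
      | cast i => simp [dlg, (Fin.castSucc_lt_last _).not_gt]
  · funext i
    fin_cases i
    · simpa using congrFun h1 (Fin.last n).castSucc
    · simpa using congrFun h1 (Fin.last (n + 1))

/-- reduction, with an explicit constant -/
theorem exists_reducedN' (x : XN F n) : ∃ (γ : GL (Fin n) F) (D : Fin n → Div F)
    (η : Fin n → Fin n → A F), actN F n γ x = RC.mk (KN F n) (triN D η) ∧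
      ∀ i j : Fin n, (j : ℕ) + 1 = i → 2 * cc F - 2 * pp F ≤ deg (D i) - deg (D j) := by
  induction n with
  | zero =>
    obtain ⟨D, η, h⟩ := exists_mk_triN (actN F 0 1 x)
    exact ⟨1, D, η, h, fun i => i.elim0⟩
  | succ n ih =>
    obtain ⟨γ, hγ⟩ := iwn_max x
    obtain ⟨γ', D, η, h1, h2⟩ := ih (quoN (actN F (n + 1) γ x))
    rw [← quoN_act γ' 1 0] at h1
    obtain ⟨ζ, h3⟩ := exists_mk_blkN' _ h1.symm
    rw [subN_act, Units.val_one, dv_one, sub_zero] at h3
    generalize subN (actN F (n + 1) γ x) = Z at hγ h3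
    obtain ⟨η', h4⟩ := blkN_triN D η Z ζ
    rw [h4, ← Equiv.Perm.mul_apply, ← map_mul] at h3
    refine ⟨_, _, _, h3, fun i j hij => ?_⟩
    induction j using Fin.lastCases with
    | last => exact absurd i.2 (by simp [← hij])
    | cast j =>
      induction i using Fin.lastCases with
      | cast i => simpa using h2 i j hij
      | last =>
        obtain ⟨m, rfl⟩ : ∃ m, n = m + 1 := ⟨j, hij.symm⟩
        obtain rfl : j = Fin.last m := Fin.ext (by simpa using hij)
        by_contra h5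
        have h6 := hγ (blkN γ' 1 0 * γ) (Z + PP F) (by
          rw [h3, twN_triN]
          refine iwn_pair _ _ ?_
          simp only [Fin.snoc_last, Fin.snoc_castSucc, map_add, map_neg, deg_PP] at h5 ⊢
          linarith)
        rw [map_add, deg_PP] at h6
        have h7 : (0 : ℤ) < pp F := by exact_mod_cast dg_pos (Cv.P : Place F)
        linarith

/-- reduction -/
theorem exists_reducedN : ∃ b : ℕ, ∀ (n : ℕ) (x : XN F n), ∃ (γ : GL (Fin n) F) (D : Fin n → Div F)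
    (η : Fin n → Fin n → A F), actN F n γ x = RC.mk (KN F n) (triN D η) ∧
      ∀ i j : Fin n, (j : ℕ) + 1 = i → -(b : ℤ) ≤ deg (D i) - deg (D j) := by
  refine ⟨(2 * cc F - 2 * pp F).natAbs, fun n x => ?_⟩
  obtain ⟨γ, D, η, h1, h2⟩ := exists_reducedN' x
  refine ⟨γ, D, η, h1, fun i j h => le_trans ?_ (h2 i j h)⟩
  rw [Int.natCast_natAbs]
  exact neg_abs_le _

end SelAvg.FF
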