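import Pool.Agent.H15G.SiegN

/-! The mass formula of Siegel for a fixed class of the determinant. -/

namespace SelAvg.FF

open WeierstrassCurve WithZero Filter Topology Matrix
open scoped Classical ENNReal

variable {F : Type} [Field F] [Cv F] {n : ℕ}

/-- linear equivalence of divisors -/
def Lin (L E : Div F) : Prop := ∃ u : Fˣ, E = L + dv (u : F)

lemma dv_units_mul (u u' : Fˣ) : dv ((u * u' : Fˣ) : F) = dv (u : F) + dv (u' : F) :=
  dv_mul u.ne_zero u'.ne_zero

lemma dv_units_inv (u : Fˣ) : dv ((u⁻¹ : Fˣ) : F) = -dv (u : F) := by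
  rw [eq_neg_iff_add_eq_zero, ← dv_units_mul, inv_mul_cancel, Units.val_one, dv_one]

lemma Lin.refl (L : Div F) : Lin L L := ⟨1, by rw [Units.val_one, dv_one, add_zero]⟩

lemma Lin.symm {L E : Div F} (h : Lin L E) : Lin E L := by
  obtain ⟨u, rfl⟩ := h
  exact ⟨u⁻¹, by rw [dv_units_inv, add_neg_cancel_right]⟩

lemma Lin.trans {L E D : Div F} (h : Lin L E) (h' : Lin E D) : Lin L D := by
  obtain ⟨u, rfl⟩ := h
  obtain ⟨u', rfl⟩ := h'
  exact ⟨u * u', by rw [dv_units_mul, add_assoc]⟩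

lemma Lin.deg_eq {L E : Div F} (h : Lin L E) : deg E = deg L := by
  obtain ⟨u, rfl⟩ := h
  rw [map_add, deg_dv, add_zero]

lemma Lin_add {L E Z : Div F} : Lin (L + Z) (E + Z) ↔ Lin L E :=
  exists_congr fun u => by rw [add_right_comm, add_left_inj]

lemma Lin_sub {L E Z : Div F} : Lin (L - Z) E ↔ Lin L (E + Z) := by
  rw [← Lin_add (Z := Z), sub_add_cancel]

lemma Lin.neg {L E : Div F} (h : Lin L E) : Lin (-L) (-E) := by
  obtain ⟨u, rfl⟩ := h
  exact ⟨u⁻¹, by rw [dv_units_inv, neg_add]⟩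

lemma Lin_neg {L E : Div F} : Lin (-L) (-E) ↔ Lin L E :=
  ⟨fun h => by simpa using h.neg, Lin.neg⟩

lemma Lin_add_dv (L E : Div F) (u : Fˣ) : Lin L (E + dv (u : F)) ↔ Lin L E :=
  ⟨fun h => h.trans (Lin.symm ⟨u, rfl⟩), fun h => h.trans ⟨u, rfl⟩⟩

lemma Lin_sub_dv (L E : Div F) (u : Fˣ) : Lin L (E - dv (u : F)) ↔ Lin L E := by
  rw [sub_eq_add_neg, ← dv_units_inv, Lin_add_dv]

lemma Lin_act (L : Div F) (γ : GL (Fin n) F) (x : XN F n) :
    Lin L (detN (actN F n γ x)) ↔ Lin L (detN x) := by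
  rw [detN_act, Lin_sub_dv]

/-- the count of pairs of a bundle and a nonzero section, from the masses in the lower rank -/
theorem siegelD_pairs (hn : 1 ≤ n) {M : ℝ} (hM0 : 0 ≤ M)
    (hM : ∀ β : XN F n → ℝ≥0∞, IsBru (actN F n) β → ∀ L : Div F,
      ∑' x, (if Lin L (detN x) then β x else 0) = (ww F : ℝ≥0∞)⁻¹ * ENNReal.ofReal M)
    {ρ : XN F (n + 1) → ℝ≥0∞} (hρ : IsBru (actN F (n + 1)) ρ) (L : Div F) :
    ∑' x, ρ x * (if Lin L (detN x) then (((H0N x).card - 1 : ℕ) : ℝ≥0∞) else 0) =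
      (ww F : ℝ≥0∞)⁻¹ * ENNReal.ofReal (qq F ^ (deg L - n * cc F) * (M * ztN F (n + 1))) := by
  have hq : 0 < qq F := zero_lt_one.trans one_lt_qq
  obtain ⟨β, hβ⟩ := exists_bruN (F := F) n
  obtain ⟨σ, hσ⟩ := exists_bruUN (F := F) n
  have key := unfold_eq (MulAction.toPermHom (GL (Fin (n + 1)) F) (Fin (n + 1) → F))
    (Subgroup.subtype _) Subtype.val_injective hρ (sn_bru hβ hσ) (eL F n)
    (fun g => ⟨fun h => ⟨⟨g, h⟩, rfl⟩, fun ⟨t, h⟩ => h ▸ t.2⟩)
    (fun z x => if Lin L (detN x) ∧ z ∈ H0N x then 1 else 0)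
    fun g z x => if_congr (and_congr (Lin_act L g x) (mem_H0N_act g x z)) rfl rfl
  refine (tsum_congr fun x => ?_).trans (key.trans ?_)
  · congr 1
    by_cases hx : Lin L (detN x)
    · rw [if_pos hx, tsum_eq_sum (s := (H0N x).erase 0), ← Finset.card_erase_of_mem
        (show 0 ∈ H0N x from zero_mem_hbox _), Finset.card_eq_sum_ones, Nat.cast_sum]
      · refine Finset.sum_congr rfl fun z hz => ?_
        obtain ⟨h1, h2⟩ := Finset.mem_erase.1 hz
        rw [if_pos (show Lin L (detN x) ∧ z ∈ H0N x from ⟨hx, h2⟩), Nat.cast_one]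
        exact (if_pos ((sn_orbit z).2 h1)).symm
      · intro z hz
        split_ifs with h1 h2
        · exact absurd (Finset.mem_erase.2 ⟨(sn_orbit z).1 h1, h2.2⟩) hz
        · rfl
        · rfl
    · simp [hx]
  · have h1 := sn_int hσ fun y Z => β y * if Lin L (detN y + Z) ∧ 0 ≤ Z then 1 else 0
    refine Eq.trans (tsum_congr fun x => ?_) (h1.trans ?_)
    · rw [mul_right_comm]
      simp only [detN_eq x, mem_H0N_sub]
    · rw [← mul_assoc, ENNReal.ofReal_mul (by positivity), ← tsum_ofReal_ztNTerm (by omega),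
        ← mul_assoc, ← ENNReal.tsum_mul_left]
      refine tsum_congr fun Z => ?_
      by_cases h0 : 0 ≤ Z
      · have h2 : ∀ y, (β y * if Lin L (detN y + Z) ∧ 0 ≤ Z then 1 else 0) *
            ENNReal.ofReal (qq F ^ (-(n * deg Z - degN y + n * cc F))) =
            (if Lin (L - Z) (detN y) then β y else 0) * ENNReal.ofReal
              (qq F ^ (deg L - n * cc F) * qq F ^ (-((n + 1 : ℕ) : ℤ) * deg Z)) := fun y => by
          by_cases h3 : Lin (L - Z) (detN y)
          · rw [if_pos ⟨Lin_sub.1 h3, h0⟩, if_pos h3, mul_one, degN, h3.deg_eq, map_sub,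
              ← zpow_add₀ hq.ne']
            congr 3
            push_cast
            ring
          · rw [if_neg fun h => h3 (Lin_sub.2 h.1), if_neg h3, mul_zero, zero_mul, zero_mul]
        rw [tsum_congr h2, ENNReal.tsum_mul_right, hM β hβ (L - Z), ztNTerm,
          if_pos h0, mul_assoc, mul_assoc, ← ENNReal.ofReal_mul hM0,
          ← ENNReal.ofReal_mul (by positivity)]
        congr 2
        ring
      · simp [ztNTerm, h0]

/-- from the count of pairs to the mass -/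
theorem siegelD_of_pairs (hn : 0 < n) {M : ℝ} (hM0 : 0 ≤ M)
    (hM : ∀ ρ : XN F n → ℝ≥0∞, IsBru (actN F n) ρ → ∀ L : Div F,
      ∑' x, ρ x * (if Lin L (detN x) then (((H0N x).card - 1 : ℕ) : ℝ≥0∞) else 0) =
        (ww F : ℝ≥0∞)⁻¹ * ENNReal.ofReal (qq F ^ (deg L + n * cc F) * M))
    {ρ : XN F n → ℝ≥0∞} (hρ : IsBru (actN F n) ρ) (L : Div F) :
    ∑' x, (if Lin L (detN x) then ρ x else 0) = (ww F : ℝ≥0∞)⁻¹ * ENNReal.ofReal M := by
  have hq : 0 < qq F := zero_lt_one.trans one_lt_qq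
  have htw : ∀ m : ℕ, ∑' x : {x : XN F n | Lin L (detN x)},
      ρ x * (((hbox (tw1 (mvLN (x : XN F n).out) m)).card - 1 : ℕ) : ℝ≥0∞) =
      (ww F : ℝ≥0∞)⁻¹ * ENNReal.ofReal (qq F ^ (deg L + n * (m * pp F) + n * cc F) * M) := fun m => by
    have hd : deg (m • PP F) = m * pp F := by rw [map_nsmul, deg_PP, nsmul_eq_mul]
    have h1 := hρ.comp_perm (twN n (m • PP F)).symm fun g x => by
      rw [Equiv.symm_apply_eq, twN_actN, Equiv.apply_symm_apply]
    have hd' : deg (L + n • m • PP F) = deg L + n * (m * pp F) := by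
      rw [map_add, map_nsmul, hd, nsmul_eq_mul]
    rw [← hd', ← hM _ h1 (L + n • m • PP F),
      ← (twN n (m • PP F)).tsum_eq, tsum_subtype {x : XN F n | Lin L (detN x)}
        fun x => ρ x * (((hbox (tw1 (mvLN x.out) m)).card - 1 : ℕ) : ℝ≥0∞)]
    refine tsum_congr fun x => ?_
    have h2 := H0N_twN x.out m
    rw [RC.mk_out] at h2
    rw [Equiv.symm_apply_apply, detN_twN, h2, Set.indicator_apply]
    by_cases hx : Lin L (detN x)
    · rw [if_pos (show x ∈ {x : XN F n | Lin L (detN x)} from hx), if_pos (Lin_add.2 hx)]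
    · rw [if_neg (show x ∉ {x : XN F n | Lin L (detN x)} from hx), if_neg fun h => hx (Lin_add.1 h),
        mul_zero]
  obtain ⟨N, hN⟩ : ∃ N, N = qq F ^ (deg L + n * cc F) := ⟨_, rfl⟩
  obtain ⟨Y, hY⟩ : ∃ Y, Y = qq F ^ (n * pp F) := ⟨_, rfl⟩
  have hN0 : 0 < N := hN ▸ zpow_pos hq _
  have hY1 : 1 < Y := hY ▸ one_lt_pow₀ one_lt_qq (by have := dg_pos (Cv.P : Place F); positivity)
  have hY0 : 0 < Y := zero_lt_one.trans hY1
  have key := tsum_eq_of_antitone (fun x : {x : XN F n | Lin L (detN x)} => ρ x)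
    (fun m x => ((hbox (tw1 (mvLN (x : XN F n).out) m)).card : ℝ≥0∞) * ENNReal.ofReal (N * Y ^ m)⁻¹)
    ?_ ?_ (fun m x => (((hbox (tw1 (mvLN (x : XN F n).out) m)).card - 1 : ℕ) : ℝ≥0∞) *
      ENNReal.ofReal (N * Y ^ m)⁻¹) (fun m => ENNReal.ofReal (N * Y ^ m)⁻¹) ?_ ?_
    (M := (ww F : ℝ≥0∞)⁻¹ * ENNReal.ofReal M) 
    (ENNReal.mul_ne_top (ENNReal.inv_ne_top.2 (Nat.cast_ne_zero.2 ww_pos.ne')) ENNReal.ofReal_ne_top) ?_
  · rw [← key, tsum_subtype {x : XN F n | Lin L (detN x)} ρ]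
    exact tsum_congr fun x => by rw [Set.indicator_apply]; rfl
  · intro m x
    have h1 : ((hbox (tw1 (mvLN (x : XN F n).out) (m + 1))).card : ℝ) ≤
        Y * (hbox (tw1 (mvLN (x : XN F n).out) m)).card := by
      rw [hY]
      exact_mod_cast card_tw1_le (mvLN (x : XN F n).out) m
    rw [← ENNReal.ofReal_natCast, ← ENNReal.ofReal_natCast,
      ← ENNReal.ofReal_mul (Nat.cast_nonneg _), ← ENNReal.ofReal_mul (Nat.cast_nonneg _)]
    refine ENNReal.ofReal_le_ofReal
      ((mul_le_mul_of_nonneg_right h1 (by positivity)).trans (le_of_eq ?_))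
    rw [pow_succ]
    field_simp
  · intro x
    filter_upwards [NN_spec (mvLN (x : XN F n).out)] with m hm
    have hx : deg (idiv (GeneralLinearGroup.det (x : XN F n).out)) = deg L := Lin.deg_eq x.2
    rw [NN_mvLN, hx, ← hN, mul_right_comm, pow_mul, ← hY] at hm
    rw [← ENNReal.ofReal_natCast, ← ENNReal.ofReal_mul (Nat.cast_nonneg _), hm,
      mul_inv_cancel₀ (by positivity), ENNReal.ofReal_one]
  · rw [← ENNReal.ofReal_zero]
    exact ENNReal.tendsto_ofReal (tendsto_inv_atTop_zero.comp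
      ((tendsto_pow_atTop_atTop_of_one_lt hY1).const_mul_atTop hN0))
  · intro m x
    have h1 : 1 ≤ (hbox (tw1 (mvLN (x : XN F n).out) m)).card :=
      Finset.card_pos.2 ⟨0, zero_mem_hbox _⟩
    rw [← add_one_mul, ← Nat.cast_succ, Nat.succ_eq_add_one, Nat.sub_add_cancel h1]
  · intro m
    simp only [← mul_assoc]
    rw [ENNReal.tsum_mul_right, htw m, mul_assoc, ← ENNReal.ofReal_mul' (by positivity),
      mul_right_comm _ M, hN, hY, ← pow_mul, ← zpow_natCast, ← zpow_add₀ hq.ne', ← _root_.zpow_neg,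
      ← zpow_add₀ hq.ne']
    rw [show deg L + n * (m * pp F) + n * cc F + -(deg L + n * cc F + ((n * pp F * m : ℕ) : ℤ)) = 0 by
      push_cast; ring, zpow_zero, one_mul]

theorem siegelD_one {ρ : XN F 1 → ℝ≥0∞} (hρ : IsBru (actN F 1) ρ) (L : Div F) :
    ∑' x, (if Lin L (detN x) then ρ x else 0) = (ww F : ℝ≥0∞)⁻¹ := by
  have hd : ∀ E : Div F, detN (twN 1 (-E) (RC.mk (KN F 1) 1)) = -E := fun E => by
    rw [detN_twN, detN_mk, map_one, idiv_one, zero_add, one_smul]
  have hb : Function.Bijective fun E : Div F => twN 1 (-E) (RC.mk (KN F 1) 1) := by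
    refine ⟨fun E E' h => neg_injective ?_, fun x => ?_⟩
    · rw [← hd, ← hd E']
      exact congrArg detN h
    · obtain ⟨D, η, rfl⟩ := exists_mk_triN x
      refine ⟨-D 0, ?_⟩
      change twN 1 (- -D 0) _ = _
      rw [neg_neg, twN_mk, mul_one]
      congr 1
      refine Units.ext ?_
      ext1 i j
      rw [Subsingleton.elim i 0, Subsingleton.elim j 0, scN_val, triN_apply]
      simp
  have hs : Function.Bijective (scN 1 : Fˣ → GL (Fin 1) F) := by
    refine ⟨fun u u' h => ?_, fun g => ⟨GeneralLinearGroup.det g, Units.ext ?_⟩⟩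
    · simpa only [det_scN, pow_one] using congrArg GeneralLinearGroup.det h
    · ext1 i j
      rw [Subsingleton.elim i 0, Subsingleton.elim j 0, scN_val]
      simp
  have h1 : IsBru (actD F) fun E => ρ (twN 1 (-E) (RC.mk (KN F 1) 1)) := fun E => by
    rw [← hρ (twN 1 (-E) (RC.mk (KN F 1) 1)), ← (Equiv.ofBijective _ hs).tsum_eq]
    refine tsum_congr fun u => ?_
    rw [actD_apply, Equiv.ofBijective_apply, actN_scN, ← twN_add, ← neg_add_rev]
  rw [← class_mass h1 (-L), ← (Equiv.ofBijective _ hb).tsum_eq]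
  refine tsum_congr fun E => ?_
  rw [Equiv.ofBijective_apply, hd]
  refine if_congr (Lin_neg.symm.trans ?_) rfl rfl
  rw [neg_neg]
  rfl

/-- the mass formula of Siegel for a fixed class of the determinant -/
theorem siegel_detN (hn : 0 < n) {ρ : XN F n → ℝ≥0∞} (hρ : IsBru (actN F n) ρ) (L : Div F) :
    ∑' x, (if Lin L (detN x) then ρ x else 0) = (ww F : ℝ≥0∞)⁻¹ * ENNReal.ofReal (sgN F n) := by
  induction n, hn using Nat.le_induction generalizing L with
  | base => rw [siegelD_one hρ L, sgN_one, ENNReal.ofReal_one, mul_one]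
  | succ n hn ih =>
    have hq : 0 < qq F := zero_lt_one.trans one_lt_qq
    refine siegelD_of_pairs n.succ_pos sgN_pos.le (fun ρ hρ L => ?_) hρ L
    rw [siegelD_pairs hn sgN_pos.le (fun β hβ L => ih hβ L) hρ L, sgN_succ hn, ← mul_assoc _ _
      (sgN F n * _), ← zpow_add₀ hq.ne']
    congr 4
    push_cast
    ring

/-- the push-forward of the mass along the determinant -/
theorem siegel_funN (hn : 0 < n) {ρ : XN F n → ℝ≥0∞} (hρ : IsBru (actN F n) ρ)
    {β : Div F → ℝ≥0∞} (hβ : IsBru (actD F) β) (Φ : Div F → ℝ≥0∞)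
    (hΦ : ∀ (E : Div F) (u : Fˣ), Φ (E + dv (u : F)) = Φ E) :
    ∑' x, ρ x * Φ (detN x) = (∑' E, β E * Φ E) * ENNReal.ofReal (sgN F n) := by
  have hw : (ww F : ℝ≥0∞) * (ww F : ℝ≥0∞)⁻¹ = 1 :=
    ENNReal.mul_inv_cancel (Nat.cast_ne_zero.2 ww_pos.ne') (ENNReal.natCast_ne_top _)
  have h1 : ∀ x, ρ x * Φ (detN x) =
      ∑' E, β E * Φ E * ww F * if Lin E (detN x) then ρ x else 0 := fun x => by
    have h2 : ∀ E, (β E * Φ E * ww F * if Lin E (detN x) then ρ x else 0) =
        ρ x * Φ (detN x) * ww F * if ∃ u : Fˣ, E = detN x + dv (u : F) then β E else 0 := fun E => by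
      by_cases h : Lin E (detN x)
      · rw [if_pos h, if_pos (show ∃ u : Fˣ, E = detN x + dv (u : F) from h.symm)]
        obtain ⟨u, hu⟩ := h
        rw [hu, hΦ]
        ring
      · rw [if_neg h, if_neg fun h' : ∃ u : Fˣ, E = detN x + dv (u : F) => h (Lin.symm h'),
          mul_zero, mul_zero]
    rw [tsum_congr h2, ENNReal.tsum_mul_left, class_mass hβ, mul_assoc, hw, mul_one]
  rw [tsum_congr h1, ENNReal.tsum_comm, ← ENNReal.tsum_mul_right]
  refine tsum_congr fun E => ?_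
  rw [ENNReal.tsum_mul_left, siegel_detN hn hρ, mul_assoc _ (ww F : ℝ≥0∞), ← mul_assoc (ww F : ℝ≥0∞),
    hw, one_mul]

/-- pairs of bundles, any function of the two classes -/
theorem siegel_funNN {m : ℕ} (hm : 0 < m) (hn : 0 < n) {τ : XN F m × XN F n → ℝ≥0∞}
    (hτ : IsBru (prodAct (actN F m) (actN F n)) τ) {β : Div F → ℝ≥0∞} (hβ : IsBru (actD F) β)
    (Φ : Div F → Div F → ℝ≥0∞) (hΦ : ∀ (E E' : Div F) (u : Fˣ), Φ (E + dv (u : F)) E' = Φ E E')
    (hΦ' : ∀ (E E' : Div F) (u : Fˣ), Φ E (E' + dv (u : F)) = Φ E E') :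
    ∑' x, τ x * Φ (detN x.1) (detN x.2) =
      (∑' E', β E' * ∑' E, β E * Φ E E') * ENNReal.ofReal (sgN F m * sgN F n) := by
  obtain ⟨ρ, hρ⟩ := exists_bruN (F := F) m
  obtain ⟨ρ', hρ'⟩ := exists_bruN (F := F) n
  rw [hτ.tsum_eq (hρ.prod hρ') _ fun g x => by
    rw [prodAct_apply, detN_act, detN_act, sub_eq_add_neg, sub_eq_add_neg, ← dv_units_inv,
      ← dv_units_inv, hΦ, hΦ'], ENNReal.tsum_prod', ENNReal.tsum_comm]
  have h1 : ∀ y : XN F n, ∑' x : XN F m, ρ x * ρ' y * Φ (detN x) (detN y) =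
      ρ' y * ((∑' E, β E * Φ E (detN y)) * ENNReal.ofReal (sgN F m)) := fun y => by
    rw [← siegel_funN hm hρ hβ (fun E => Φ E (detN y)) fun E u => hΦ E _ u, ← ENNReal.tsum_mul_left]
    exact tsum_congr fun x => by ring
  rw [tsum_congr h1, siegel_funN hn hρ' hβ
    (fun E' => (∑' E, β E * Φ E E') * ENNReal.ofReal (sgN F m)) fun E' u => by simp only [hΦ'],
    ENNReal.ofReal_mul sgN_pos.le, ← mul_assoc, ← ENNReal.tsum_mul_right
      (a := ENNReal.ofReal (sgN F m))]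
  simp only [mul_assoc]

/-- pairs of bundles `(x, y)` with `det x + e det y` in a fixed class and `y` of a fixed degree -/
theorem siegel_linNN {m : ℕ} (hm : 0 < m) (hn : 0 < n) {τ : XN F m × XN F n → ℝ≥0∞}
    (hτ : IsBru (prodAct (actN F m) (actN F n)) τ) (e : ℤ) (L : Div F) {k : ℤ}
    (hk : (dl F : ℤ) ∣ k) :
    ∑' x, (if Lin L (detN x.1 + e • detN x.2) ∧ degN x.2 = k then τ x else 0) =
      kap F * (ww F : ℝ≥0∞)⁻¹ * ENNReal.ofReal (sgN F m * sgN F n) := by
  obtain ⟨β, hβ⟩ := exists_bruD (F := F)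
  have h := siegel_funNN hm hn hτ hβ
    (fun E E' => if Lin L (E + e • E') ∧ deg E' = k then 1 else 0) (fun E E' u => ?_)
    fun E E' u => ?_
  · simp only [mul_ite, mul_one, mul_zero] at h
    have h0 : ∀ E', β E' * ∑' E, (if Lin L (E + e • E') ∧ deg E' = k then β E else 0) =
        (if deg E' = k then β E' else 0) * (ww F : ℝ≥0∞)⁻¹ := fun E' => by
      by_cases h1 : deg E' = k
      · simp only [h1, and_true, if_true, ← Lin_sub]
        exact congrArg _ (class_mass hβ _)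
      · simp [h1]
    rw [tsum_congr h0, ENNReal.tsum_mul_right, kap_eq hβ hk] at h
    exact h
  · simp only [add_right_comm E, Lin_add_dv]
  · have h1 : e • dv (u : F) = dv ((u ^ e : Fˣ) : F) := by
      have h2 : ∀ j : ℕ, dv ((u ^ j : Fˣ) : F) = j • dv (u : F) := fun j => by
        rw [Units.val_pow_eq_pow_val, dv_pow]
      obtain ⟨j, rfl | rfl⟩ := e.eq_nat_or_neg
      · rw [zpow_natCast, h2, natCast_zsmul]
      · rw [_root_.zpow_neg, zpow_natCast, dv_units_inv, h2, neg_zsmul, natCast_zsmul]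
    simp only [smul_add, h1, ← add_assoc, Lin_add_dv, map_add, deg_dv, add_zero]

end SelAvg.FF
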