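import Pool.Agent.H81Sel.Zeta

/-! The values of the zeta function at the integers `s ≥ 2`. -/

namespace SelAvg.FF

open WeierstrassCurve WithZero Filter Topology
open scoped Classical ENNReal

variable {F : Type} [Field F] [Cv F] {s : ℕ}

/-- the term of the zeta series at `s` -/
noncomputable def ztNTerm (s : ℕ) (Z : Div F) : ℝ :=
  if 0 ≤ Z then qq F ^ (-(s : ℤ) * deg Z) else 0

lemma ztNTerm_two : ztNTerm (F := F) 2 = ztTerm := rfl

lemma zetaN_term_nonneg (Z : Div F) : 0 ≤ ztNTerm s Z := by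
  have hq0 : 0 < qq F := one_pos.trans one_lt_qq
  unfold ztNTerm
  split_ifs
  · positivity
  · exact le_rfl

lemma zetaN_term_zero : ztNTerm s (0 : Div F) = 1 := by
  rw [ztNTerm, if_pos le_rfl, map_zero, mul_zero, zpow_zero]

lemma zetaN_term_add (v : Place F) {Z : Div F} (h : 0 ≤ Z) :
    ztNTerm s (Z + Finsupp.single v 1) = 1 / (qq F ^ dg v) ^ s * ztNTerm s Z := by
  have hq0 : 0 < qq F := one_pos.trans one_lt_qq
  rw [ztNTerm, ztNTerm, if_pos h, if_pos (add_nonneg h (Finsupp.single_nonneg.2 zero_le_one)),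
    map_add, deg_single, one_mul, mul_add, zpow_add₀ hq0.ne', mul_comm, one_div, ← pow_mul,
    ← zpow_natCast, ← zpow_neg]
  congr 2
  push_cast
  ring

theorem summable_ztNTerm (hs : 2 ≤ s) : Summable (ztNTerm (F := F) s) := by
  refine Summable.of_nonneg_of_le zetaN_term_nonneg (fun Z => ?_) summable_ztTerm
  unfold ztNTerm ztTerm
  split_ifs with h
  · refine zpow_le_zpow_right₀ one_lt_qq.le (mul_le_mul_of_nonneg_right ?_ (deg_nonneg h))
    omega
  · exact le_rfl

variable (F) in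
/-- the value `ζ(s)` -/
noncomputable def ztN (s : ℕ) : ℝ := ∑' Z : Div F, ztNTerm s Z

lemma ztN_two : ztN F 2 = zt F := rfl

lemma ztN_nonneg : 0 ≤ ztN F s := tsum_nonneg zetaN_term_nonneg

lemma one_le_ztN (hs : 2 ≤ s) : 1 ≤ ztN F s := by
  rw [← zetaN_term_zero (F := F) (s := s)]
  exact (summable_ztNTerm hs).le_tsum 0 fun Z _ => zetaN_term_nonneg Z

lemma tsum_ofReal_ztNTerm (hs : 2 ≤ s) :
    ∑' Z : Div F, ENNReal.ofReal (ztNTerm s Z) = ENNReal.ofReal (ztN F s) :=
  (ENNReal.ofReal_tsum_of_nonneg zetaN_term_nonneg (summable_ztNTerm hs)).symm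

/-- the product of the local masses -/
noncomputable def cSN (s : ℕ) (S : Finset (Place F)) : ℝ := ∏ v ∈ S, (1 - 1 / (qq F ^ dg v) ^ s)

lemma zetaN_loc_nonneg (v : Place F) : 0 ≤ 1 / (qq F ^ dg v) ^ s := by positivity

lemma zetaN_loc_le_one (v : Place F) : 1 / (qq F ^ dg v) ^ s ≤ 1 :=
  div_le_one_of_le₀ (one_le_pow₀ (one_le_pow₀ (one_lt_qq (F := F)).le)) (by positivity)

lemma cSN_nonneg (S : Finset (Place F)) : 0 ≤ cSN s S := by
  exact Finset.prod_nonneg fun v _ => sub_nonneg.2 (zetaN_loc_le_one v)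

lemma cSN_le_one (S : Finset (Place F)) : cSN s S ≤ 1 := by
  exact Finset.prod_le_one (fun v _ => sub_nonneg.2 (zetaN_loc_le_one v))
    fun v _ => sub_le_self _ (zetaN_loc_nonneg v)

/-- the terms of the divisors that are prime to `S` -/
noncomputable def zetaGN (s : ℕ) (S : Finset (Place F)) (Z : Div F) : ℝ :=
  if ∀ v ∈ S, Z v = 0 then ztNTerm s Z else 0

lemma zetaN_G_nonneg (S : Finset (Place F)) (Z : Div F) : 0 ≤ zetaGN s S Z := by
  unfold zetaGN
  split_ifs
  · exact zetaN_term_nonneg Z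
  · exact le_rfl

lemma zetaN_G_le (S : Finset (Place F)) (Z : Div F) : zetaGN s S Z ≤ ztNTerm s Z := by
  unfold zetaGN
  split_ifs
  · exact le_rfl
  · exact zetaN_term_nonneg Z

lemma zetaN_G_zero (S : Finset (Place F)) : zetaGN s S 0 = 1 := by
  exact (if_pos fun v _ => rfl).trans zetaN_term_zero

lemma zetaN_G_summable (hs : 2 ≤ s) (S : Finset (Place F)) : Summable (zetaGN s S) :=
  Summable.of_nonneg_of_le (zetaN_G_nonneg S) (zetaN_G_le S) (summable_ztNTerm hs)

lemma zetaN_shift {S : Finset (Place F)} {v : Place F} (hv : v ∉ S) (Z : Div F) :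
    (if (Z + Finsupp.single v 1 : Div F) v = 0 then 0 else zetaGN s S (Z + Finsupp.single v 1)) =
      1 / (qq F ^ dg v) ^ s * zetaGN s S Z := by
  have h1 : ∀ w, w ≠ v → (Z + Finsupp.single v 1 : Div F) w = Z w := fun w hw => by
    rw [Finsupp.add_apply, Finsupp.single_eq_of_ne hw, add_zero]
  have h2 : (Z + Finsupp.single v 1 : Div F) v = Z v + 1 := by
    rw [Finsupp.add_apply, Finsupp.single_eq_same]
  have h3 : (∀ w ∈ S, (Z + Finsupp.single v 1 : Div F) w = 0) ↔ ∀ w ∈ S, Z w = 0 :=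
    forall₂_congr fun w hw => by rw [h1 w fun e => hv (e ▸ hw)]
  by_cases h0 : 0 ≤ Z
  · have h4 : (0 : ℤ) ≤ Z v := h0 v
    rw [if_neg (by rw [h2]; omega), zetaGN, zetaGN, zetaN_term_add v h0, if_congr h3 rfl rfl, mul_ite,
      mul_zero]
  · have h4 : zetaGN s S Z = 0 := le_antisymm ((zetaN_G_le S Z).trans (if_neg h0).le) (zetaN_G_nonneg S Z)
    rw [h4, mul_zero]
    split_ifs with h5
    · rfl
    · refine le_antisymm ((zetaN_G_le S _).trans (if_neg fun h6 => h0 fun w => ?_).le)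
        (zetaN_G_nonneg S _)
      have h7 : (0 : ℤ) ≤ (Z + Finsupp.single v 1 : Div F) w := h6 w
      change (0 : ℤ) ≤ Z w
      by_cases hw : w = v
      · subst hw
        rw [h2] at h5 h7
        omega
      · rwa [h1 w hw] at h7

lemma zetaN_insert (hs : 2 ≤ s) {S : Finset (Place F)} {v : Place F} (hv : v ∉ S) :
    (1 - 1 / (qq F ^ dg v) ^ s) * ∑' Z : Div F, zetaGN s S Z = ∑' Z : Div F, zetaGN s (insert v S) Z := by
  have h1 : ∀ Z : Div F, zetaGN s (insert v S) Z = zetaGN s S Z - if Z v = 0 then 0 else zetaGN s S Z := by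
    intro Z
    by_cases h : Z v = 0
    · rw [if_pos h, sub_zero, zetaGN, zetaGN]
      exact if_congr (by rw [Finset.forall_mem_insert, and_iff_right h]) rfl rfl
    · rw [if_neg h, sub_self, zetaGN, if_neg fun h' => h (h' v (Finset.mem_insert_self _ _))]
  have h2 : Summable fun Z : Div F => if Z v = 0 then 0 else zetaGN s S Z := by
    refine Summable.of_nonneg_of_le (fun Z => ?_) (fun Z => ?_) (zetaN_G_summable hs S) <;> split_ifs
    exacts [le_rfl, zetaN_G_nonneg S Z, zetaN_G_nonneg S Z, le_rfl]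
  rw [tsum_congr h1, (zetaN_G_summable hs S).tsum_sub h2,
    ← (Equiv.addRight (Finsupp.single v 1 : Div F)).tsum_eq
      fun Z : Div F => if Z v = 0 then 0 else zetaGN s S Z]
  simp only [Equiv.coe_addRight, zetaN_shift hv]
  rw [tsum_mul_left, sub_mul, one_mul]

/-- port of `tsum_eulerTerm_insert`: remove the divisors that contain `v` -/
theorem cSN_mul_ztN (hs : 2 ≤ s) (S : Finset (Place F)) :
    cSN s S * ztN F s = ∑' Z : Div F, if ∀ v ∈ S, Z v = 0 then ztNTerm s Z else 0 := by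
  change cSN s S * ztN F s = ∑' Z : Div F, zetaGN s S Z
  induction S using Finset.induction_on with
  | empty =>
    simp only [cSN, Finset.prod_empty, one_mul, ztN, zetaGN, Finset.notMem_empty, false_imp_iff,
      implies_true, if_true]
  | insert v S hv ih =>
    rw [cSN, Finset.prod_insert hv, mul_assoc, ← cSN, ih, zetaN_insert hs hv]

/-- the term `Z = 0` -/
theorem one_le_cSN_mul_ztN (hs : 2 ≤ s) (S : Finset (Place F)) : 1 ≤ cSN s S * ztN F s := by
  rw [cSN_mul_ztN hs]
  have h := (zetaN_G_summable hs S).le_tsum 0 fun Z _ => zetaN_G_nonneg S Z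
  rwa [zetaN_G_zero] at h

/-- dominated convergence (`tendsto_tsum_of_dominated_convergence`) -/
theorem tendsto_cSN_mul_ztN (hs : 2 ≤ s) :
    Tendsto (fun N => cSN s (plLE F N) * ztN F s) atTop (𝓝 1) := by
  have h := tendsto_tsum_of_dominated_convergence (𝓕 := atTop)
    (f := fun (N : ℕ) (Z : Div F) => zetaGN s (plLE F N) Z) (g := fun Z => if Z = 0 then (1 : ℝ) else 0)
    (summable_ztNTerm hs) (fun Z => ?_) (Eventually.of_forall fun N Z => ?_)
  · rw [tsum_ite_eq] at h
    exact h.congr fun N => (cSN_mul_ztN hs _).symm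
  · by_cases hZ : Z = 0
    · subst hZ
      simp only [zetaN_G_zero, if_true]
      exact tendsto_const_nhds
    · rw [if_neg hZ]
      obtain ⟨v, hv⟩ := Finsupp.ne_iff.1 hZ
      refine tendsto_const_nhds.congr' ((eventually_ge_atTop (dg v)).mono fun N hN => ?_)
      exact (if_neg fun h => hv (h v (mem_plLE.2 hN))).symm
  · rw [Real.norm_of_nonneg (zetaN_G_nonneg _ _)]
    exact zetaN_G_le _ _

lemma cSN_two (S : Finset (Place F)) : cSN 2 S = cS S := rfl

end SelAvg.FF
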