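import Pool.Agent.H15G.IwaN
import Pool.Agent.H15G.ZetaN

/-! The mass formula of Siegel in every rank, masses of strata, products. -/

namespace SelAvg.FF

open WeierstrassCurve WithZero Filter Topology Matrix
open scoped Classical ENNReal

section Gen

variable {H H' X X' T : Type} [Group H] [Group H']

/-- the product of two actions -/
def prodAct (φ : H →* Equiv.Perm X) (φ' : H' →* Equiv.Perm X') : H × H' →* Equiv.Perm (X × X') where
  toFun g := Equiv.prodCongr (φ g.1) (φ' g.2)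
  map_one' := Equiv.ext fun x => by simp
  map_mul' g g' := Equiv.ext fun x => Prod.ext (by simp) (by simp)

lemma prodAct_apply (φ : H →* Equiv.Perm X) (φ' : H' →* Equiv.Perm X') (g : H × H') (x : X × X') :
    prodAct φ φ' g x = (φ g.1 x.1, φ' g.2 x.2) := rfl

theorem IsBru.prod {φ : H →* Equiv.Perm X} {φ' : H' →* Equiv.Perm X'} {ρ : X → ℝ≥0∞}
    {ρ' : X' → ℝ≥0∞} (h : IsBru φ ρ) (h' : IsBru φ' ρ') :
    IsBru (prodAct φ φ') fun x => ρ x.1 * ρ' x.2 := by
  intro x
  simp only [prodAct_apply]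
  rw [ENNReal.tsum_prod' (f := fun g : H × H' => ρ (φ g.1 x.1) * ρ' (φ' g.2 x.2))]
  simp only [ENNReal.tsum_mul_left, h' x.2, mul_one, h x.1]

/-- masses for a product action are products of masses -/
theorem IsBru.tsum_prod {φ : H →* Equiv.Perm X} {φ' : H' →* Equiv.Perm X'} {ρ : X → ℝ≥0∞}
    {ρ' : X' → ℝ≥0∞} {τ : X × X' → ℝ≥0∞} (hτ : IsBru (prodAct φ φ') τ) (h : IsBru φ ρ)
    (h' : IsBru φ' ρ') (Φ : X → ℝ≥0∞) (Φ' : X' → ℝ≥0∞) (hΦ : ∀ g x, Φ (φ g x) = Φ x)
    (hΦ' : ∀ g x, Φ' (φ' g x) = Φ' x) :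
    ∑' x, τ x * (Φ x.1 * Φ' x.2) = (∑' x, ρ x * Φ x) * ∑' x, ρ' x * Φ' x := by
  rw [hτ.tsum_eq (h.prod h') _ fun g x => by rw [prodAct_apply, hΦ, hΦ'], ENNReal.tsum_prod',
    ← ENNReal.tsum_mul_right]
  refine tsum_congr fun x => ?_
  rw [← ENNReal.tsum_mul_left]
  exact tsum_congr fun y => mul_mul_mul_comm _ _ _ _

/-- unfolding along an injective family of group elements -/
lemma famN_le {φ : H →* Equiv.Perm X} {ρ : X → ℝ≥0∞} (hρ : IsBru φ ρ)
    (ι : T → H) (hι : Function.Injective ι) {τ ψ Ψ : X → ℝ≥0∞}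
    (hτ : ∀ x, ∑' t, τ (φ (ι t) x) = 1) (hψ : ∀ t x, ψ (φ (ι t) x) = ψ x)
    (h : ∀ x, ∃ g, Ψ x ≤ ψ (φ g x)) : ∑' x, ρ x * Ψ x ≤ ∑' x, τ x * ψ x := by
  rw [bru_swap hρ fun x => τ x * ψ x]
  refine ENNReal.tsum_le_tsum fun x => mul_le_mul_right ?_ _
  obtain ⟨g, hg⟩ := h x
  calc Ψ x ≤ ψ (φ g x) := hg
    _ = ∑' t, τ (φ (ι t * g) x) * ψ (φ (ι t * g) x) := by
        simp only [map_mul, Equiv.Perm.mul_apply, hψ]
        rw [ENNReal.tsum_mul_right, hτ, one_mul]
    _ ≤ ∑' g, τ (φ g x) * ψ (φ g x) := ENNReal.tsum_comp_le_tsum_of_injective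
        (f := fun t => ι t * g) (fun t t' h => hι (mul_right_cancel h))
        fun g => τ (φ g x) * ψ (φ g x)
    _ = _ := ((Equiv.inv H).tsum_eq fun g => τ (φ g x) * ψ (φ g x)).symm

end Gen

variable {F : Type} [Field F] [Cv F] {n : ℕ}

lemma kapN_ge {β : Div F → ℝ≥0∞} (hβ : IsBru (actD F) β) (j : ℤ) :
    ∑' E : Div F, (if deg E = j then β E else 0) ≤ kap F := by
  by_cases h : (dl F : ℤ) ∣ j
  · exact (kap_eq hβ h).le
  · exact (ENNReal.tsum_eq_zero.2 fun E =>
      if_neg fun h' : deg E = j => h (h' ▸ dl_dvd E)).trans_le zero_le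

/-- the unipotent radical -/
noncomputable def UN (F : Type) [Field F] (n : ℕ) :
    Multiplicative (Fin n → F) →* GL (Fin (n + 1)) F :=
  MonoidHom.mk' (fun y => blkN 1 1 (-y.toAdd)) fun y y' => by
    rw [blkN_mul, mul_one, mul_one, inv_one, Units.val_one, Units.val_one, one_smul, vecMul_one,
      toAdd_mul, neg_add_rev]

omit [Cv F] in
lemma UN_apply (y : Multiplicative (Fin n → F)) : UN F n y = blkN 1 1 (-y.toAdd) := rfl

omit [Cv F] in
lemma sn_inj : Function.Injective fun p : (GL (Fin n) F × Fˣ) × Multiplicative (Fin n → F) =>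
    UN F n p.2 * blkN p.1.1 p.1.2 0 := by
  rintro ⟨⟨γ, u⟩, y⟩ ⟨⟨γ', u'⟩, y'⟩ h
  have h1 := h
  simp only [UN_apply, blkN_mul, one_mul] at h1
  obtain ⟨rfl, rfl, -⟩ := blkN_inj h1
  obtain rfl : y = y' := neg_injective (G := Fin n → F) (blkN_inj (mul_right_cancel h)).2.2
  rfl

lemma sn_act (g : GL (Fin n) (A F)) (z : (A F)ˣ) (η : Fin n → A F) (y : Fin n → F) :
    actN F (n + 1) (UN F n (Multiplicative.ofAdd y)) (RC.mk (KN F (n + 1)) (blkN g z η)) =
      RC.mk (KN F (n + 1)) (blkN g z (η + dlg y)) := by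
  rw [actN_mk, mul_inv_eq_iff_eq_mul.2]
  rw [UN_apply, map_blkN, map_one, map_one, blkN_mul, mul_one, mul_one, inv_one, Units.val_one,
    Units.val_one, one_smul, vecMul_one]
  congr 1
  funext i
  simp [dlg]

lemma exists_bruUN (n : ℕ) : ∃ σ, IsBru ((actN F (n + 1)).comp (UN F n)) σ :=
  exists_bru _ fun x => (finite_stabN x).preimage (f := UN F n)
    fun _ _ _ _ h => neg_injective (G := Fin n → F) (blkN_inj h).2.2

variable {σ : XN F (n + 1) → ℝ≥0∞}

/-- the mass of the extensions -/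
lemma sn_fibre (hσ : IsBru ((actN F (n + 1)).comp (UN F n)) σ) (y : XN F n) (Z : Div F) :
    ∑' x, (if quoN x = y ∧ subN x = Z then σ x else 0) =
      ENNReal.ofReal (qq F ^ (-(n * deg Z - degN y + n * cc F))) := by
  obtain ⟨g, rfl⟩ := y.mk_surj
  have h1 := mass_lattice (mvLN (scN n (piD Z) * trN g⁻¹)) (NN_pos _) (NN_spec _)
    (fun η => RC.mk (KN F (n + 1)) (blkN g (piD Z) η)) (fun a a' => by
      simp only [blkN_eq_iff, true_and, mvLN_scN, mvLN_apply (trN g⁻¹), trN_val,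
        mulVec_transpose]) σ fun a => by
      rw [← hσ (RC.mk (KN F (n + 1)) (blkN g (piD Z) a))]
      exact tsum_congr fun y => congrArg σ (sn_act g _ a y).symm
  rw [NN_mvLN, map_mul, det_scN, det_trN, map_inv, idiv_mul, idiv_pow, idiv_inv, idiv_piD, map_add,
    map_neg, map_nsmul, ← _root_.zpow_neg] at h1
  rw [degN, detN_mk]
  convert h1 using 4 with x
  · refine ⟨?_, ?_⟩
    · rintro ⟨h2, rfl⟩
      exact (exists_mk_blkN' x h2.symm).imp fun _ => Eq.symm
    · rintro ⟨η, rfl⟩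
      rw [quoN_mk, subN_mk, idiv_piD]
      exact ⟨rfl, rfl⟩
  · rw [nsmul_eq_mul]
    ring

/-- integration over the fibres -/
lemma sn_int (hσ : IsBru ((actN F (n + 1)).comp (UN F n)) σ) (Φ : XN F n → Div F → ℝ≥0∞) :
    ∑' x, Φ (quoN x) (subN x) * σ x =
      ∑' Z, ∑' y, Φ y Z * ENNReal.ofReal (qq F ^ (-(n * deg Z - degN y + n * cc F))) := by
  have h : ∀ x, Φ (quoN x) (subN x) * σ x =
      ∑' Z, ∑' y, Φ y Z * if quoN x = y ∧ subN x = Z then σ x else 0 := fun x => by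
    rw [tsum_eq_single (subN x), tsum_eq_single (quoN x), if_pos ⟨rfl, rfl⟩]
    · exact fun y h => by rw [if_neg fun h' => h h'.1.symm, mul_zero]
    · exact fun Z h => ENNReal.tsum_eq_zero.2 fun y => by
        rw [if_neg fun h' => h h'.2.symm, mul_zero]
  rw [tsum_congr h, ENNReal.tsum_comm]
  refine tsum_congr fun Z => ENNReal.tsum_comm.trans (tsum_congr fun y => ?_)
  rw [ENNReal.tsum_mul_left, sn_fibre hσ]

lemma sn_inner (hσ : IsBru ((actN F (n + 1)).comp (UN F n)) σ) (Φ : XN F n → Div F → ℝ≥0∞)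
    (x : XN F (n + 1)) :
    ∑' y, Φ (quoN (actN F (n + 1) (UN F n y) x)) (subN (actN F (n + 1) (UN F n y) x)) *
      σ (actN F (n + 1) (UN F n y) x) = Φ (quoN x) (subN x) := by
  have h : ∀ y, quoN (actN F (n + 1) (UN F n y) x) = quoN x ∧
      subN (actN F (n + 1) (UN F n y) x) = subN x := fun y => by
    rw [UN_apply, quoN_act, subN_act, map_one, Units.val_one, dv_one, sub_zero]
    exact ⟨rfl, rfl⟩
  simp only [h]
  rw [ENNReal.tsum_mul_left]
  exact (congrArg _ (hσ x)).trans (mul_one _)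

omit [Cv F] in
lemma sn_stab {g : GL (Fin (n + 1)) F} :
    g ∈ MulAction.stabilizer (GL (Fin (n + 1)) F) (eL F n) ↔ ∃ g' η, g = blkN g' 1 η :=
  mulVec_eL_eq_iff

omit [Cv F] in
lemma sn_orbit (z : Fin (n + 1) → F) : (∃ g : GL (Fin (n + 1)) F, g • eL F n = z) ↔ z ≠ 0 := by
  constructor
  · rintro ⟨g, rfl⟩ h
    simpa [eL] using congrFun ((smul_eq_zero_iff_eq g).1 h) (Fin.last n)
  · intro hz
    obtain ⟨γ, h⟩ := exists_mulVec_eL hz
    exact ⟨γ⁻¹, inv_smul_eq_iff.2 h.symm⟩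

lemma sn_bru {β : XN F n → ℝ≥0∞} (hβ : IsBru (actN F n) β)
    (hσ : IsBru ((actN F (n + 1)).comp (UN F n)) σ) :
    IsBru ((actN F (n + 1)).comp (MulAction.stabilizer (GL (Fin (n + 1)) F) (eL F n)).subtype)
      fun x => β (quoN x) * σ x := by
  intro x
  have e : ∀ p : GL (Fin n) F × Multiplicative (Fin n → F), UN F n p.2 * blkN p.1 1 0 ∈
      MulAction.stabilizer (GL (Fin (n + 1)) F) (eL F n) := fun p =>
    mul_mem (sn_stab.2 ⟨_, _, rfl⟩) (sn_stab.2 ⟨_, _, rfl⟩)
  rw [← (Equiv.ofBijective (fun p => (⟨_, e p⟩ : MulAction.stabilizer (GL (Fin (n + 1)) F)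
    (eL F n))) ⟨fun p p' h => ?_, fun g => ?_⟩).tsum_eq, ENNReal.tsum_prod', ← hβ (quoN x)]
  · refine tsum_congr fun γ => ?_
    have h := sn_inner hσ (fun y _ => β y) (actN F (n + 1) (blkN γ 1 0) x)
    rw [quoN_act] at h
    rw [← h]
    refine tsum_congr fun y => ?_
    rw [← Equiv.Perm.mul_apply, ← map_mul]
    rfl
  · have h1 := @sn_inj F _ n ((p.1, 1), p.2) ((p'.1, 1), p'.2) (congrArg Subtype.val h)
    exact Prod.ext (congrArg (fun q => q.1.1) h1) (congrArg (fun q => q.2) h1)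
  · obtain ⟨γ, y, h⟩ := sn_stab.1 g.2
    refine ⟨(γ, Multiplicative.ofAdd (-(y ᵥ* (γ⁻¹).1))), Subtype.ext (Eq.trans ?_ h.symm)⟩
    change UN F n _ * _ = _
    rw [UN_apply, blkN_mul, one_mul, one_mul, inv_one, Units.val_one, one_smul, zero_add,
      toAdd_ofAdd, neg_neg, vecMul_vecMul, Units.inv_mul, vecMul_one]

/-- the count of pairs of a bundle and a nonzero section, from the masses in the lower rank -/
theorem siegelN_pairs (hn : 1 ≤ n) {M : ℝ} (hM0 : 0 ≤ M)
    (hM : ∀ β : XN F n → ℝ≥0∞, IsBru (actN F n) β → ∀ k : ℤ, (dl F : ℤ) ∣ k →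
      ∑' x, (if degN x = k then β x else 0) = kap F * ENNReal.ofReal M)
    {ρ : XN F (n + 1) → ℝ≥0∞} (hρ : IsBru (actN F (n + 1)) ρ) {k : ℤ} (hk : (dl F : ℤ) ∣ k) :
    ∑' x, ρ x * (if degN x = k then (((H0N x).card - 1 : ℕ) : ℝ≥0∞) else 0) =
      kap F * ENNReal.ofReal (qq F ^ (k - n * cc F) * (M * ztN F (n + 1))) := by
  have hq : 0 < qq F := zero_lt_one.trans one_lt_qq
  obtain ⟨β, hβ⟩ := exists_bruN (F := F) n
  obtain ⟨σ, hσ⟩ := exists_bruUN (F := F) n
  have key := unfold_eq (MulAction.toPermHom (GL (Fin (n + 1)) F) (Fin (n + 1) → F))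
    (Subgroup.subtype _) Subtype.val_injective hρ (sn_bru hβ hσ) (eL F n)
    (fun g => ⟨fun h => ⟨⟨g, h⟩, rfl⟩, fun ⟨t, h⟩ => h ▸ t.2⟩)
    (fun z x => if degN x = k ∧ z ∈ H0N x then 1 else 0)
    fun g z x => if_congr (and_congr (by rw [degN_act]) (mem_H0N_act g x z)) rfl rfl
  refine (tsum_congr fun x => ?_).trans (key.trans ?_)
  · congr 1
    by_cases hx : degN x = k
    · rw [if_pos hx, tsum_eq_sum (s := (H0N x).erase 0), ← Finset.card_erase_of_mem
        (show 0 ∈ H0N x from zero_mem_hbox _), Finset.card_eq_sum_ones, Nat.cast_sum]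
      · refine Finset.sum_congr rfl fun z hz => ?_
        obtain ⟨h1, h2⟩ := Finset.mem_erase.1 hz
        rw [if_pos (show degN x = k ∧ z ∈ H0N x from ⟨hx, h2⟩), Nat.cast_one]
        exact (if_pos ((sn_orbit z).2 h1)).symm
      · intro z hz
        split_ifs with h1 h2
        · exact absurd (Finset.mem_erase.2 ⟨(sn_orbit z).1 h1, h2.2⟩) hz
        · rfl
        · rfl
    · simp [hx]
  · have h1 := sn_int hσ fun y Z => β y * if degN y + deg Z = k ∧ 0 ≤ Z then 1 else 0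
    refine Eq.trans (tsum_congr fun x => ?_) (h1.trans ?_)
    · rw [mul_right_comm]
      simp only [degN_eq x, mem_H0N_sub]
    · rw [← mul_assoc, ENNReal.ofReal_mul (by positivity), ← tsum_ofReal_ztNTerm (by omega),
        ← mul_assoc, ← ENNReal.tsum_mul_left]
      refine tsum_congr fun Z => ?_
      by_cases h0 : 0 ≤ Z
      · have h2 : ∀ y, (β y * if degN y + deg Z = k ∧ 0 ≤ Z then 1 else 0) *
            ENNReal.ofReal (qq F ^ (-(n * deg Z - degN y + n * cc F))) =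
            (if degN y = k - deg Z then β y else 0) * ENNReal.ofReal
              (qq F ^ (k - n * cc F) * qq F ^ (-((n + 1 : ℕ) : ℤ) * deg Z)) := fun y => by
          by_cases h3 : degN y = k - deg Z
          · rw [if_pos ⟨by rw [h3, sub_add_cancel], h0⟩, if_pos h3, mul_one, h3,
              ← zpow_add₀ hq.ne']
            congr 3
            push_cast
            ring
          · rw [if_neg fun h => h3 (eq_sub_of_add_eq h.1), if_neg h3, mul_zero, zero_mul, zero_mul]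
        rw [tsum_congr h2, ENNReal.tsum_mul_right, hM β hβ _ (hk.sub (dl_dvd Z)), ztNTerm,
          if_pos h0, mul_assoc, mul_assoc, ← ENNReal.ofReal_mul hM0,
          ← ENNReal.ofReal_mul (by positivity)]
        congr 2
        ring
      · simp [ztNTerm, h0]

/-- from the count of pairs to the mass -/
theorem siegelN_of_pairs (hn : 0 < n) {M : ℝ} (hM0 : 0 ≤ M)
    (hM : ∀ ρ : XN F n → ℝ≥0∞, IsBru (actN F n) ρ → ∀ k : ℤ, (dl F : ℤ) ∣ k →
      ∑' x, ρ x * (if degN x = k then (((H0N x).card - 1 : ℕ) : ℝ≥0∞) else 0) =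
        kap F * ENNReal.ofReal (qq F ^ (k + n * cc F) * M))
    {ρ : XN F n → ℝ≥0∞} (hρ : IsBru (actN F n) ρ) {k : ℤ} (hk : (dl F : ℤ) ∣ k) :
    ∑' x, (if degN x = k then ρ x else 0) = kap F * ENNReal.ofReal M := by
  have hq : 0 < qq F := zero_lt_one.trans one_lt_qq
  have htw : ∀ m : ℕ, ∑' x : {x : XN F n | degN x = k},
      ρ x * (((hbox (tw1 (mvLN (x : XN F n).out) m)).card - 1 : ℕ) : ℝ≥0∞) =
      kap F * ENNReal.ofReal (qq F ^ (k + n * (m * pp F) + n * cc F) * M) := fun m => by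
    have hd : deg (m • PP F) = m * pp F := by rw [map_nsmul, deg_PP, nsmul_eq_mul]
    have h1 := hρ.comp_perm (twN n (m • PP F)).symm fun g x => by
      rw [Equiv.symm_apply_eq, twN_actN, Equiv.apply_symm_apply]
    have hd' : (dl F : ℤ) ∣ m * pp F := hd ▸ dl_dvd (m • PP F)
    rw [← hM _ h1 _ (hk.add (hd'.mul_left n)),
      ← (twN n (m • PP F)).tsum_eq, tsum_subtype {x : XN F n | degN x = k}
        fun x => ρ x * (((hbox (tw1 (mvLN x.out) m)).card - 1 : ℕ) : ℝ≥0∞)]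
    refine tsum_congr fun x => ?_
    have h2 := H0N_twN x.out m
    rw [RC.mk_out] at h2
    rw [Equiv.symm_apply_apply, degN_twN, hd, h2, Set.indicator_apply]
    by_cases hx : degN x = k
    · rw [if_pos (show x ∈ {x : XN F n | degN x = k} from hx), if_pos (by rw [hx])]
    · rw [if_neg (show x ∉ {x : XN F n | degN x = k} from hx), if_neg (by simpa using hx), mul_zero]
  obtain ⟨N, hN⟩ : ∃ N, N = qq F ^ (k + n * cc F) := ⟨_, rfl⟩
  obtain ⟨Y, hY⟩ : ∃ Y, Y = qq F ^ (n * pp F) := ⟨_, rfl⟩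
  have hN0 : 0 < N := hN ▸ zpow_pos hq _
  have hY1 : 1 < Y := hY ▸ one_lt_pow₀ one_lt_qq (by have := dg_pos (Cv.P : Place F); positivity)
  have hY0 : 0 < Y := zero_lt_one.trans hY1
  have key := tsum_eq_of_antitone (fun x : {x : XN F n | degN x = k} => ρ x)
    (fun m x => ((hbox (tw1 (mvLN (x : XN F n).out) m)).card : ℝ≥0∞) * ENNReal.ofReal (N * Y ^ m)⁻¹)
    ?_ ?_ (fun m x => (((hbox (tw1 (mvLN (x : XN F n).out) m)).card - 1 : ℕ) : ℝ≥0∞) *
      ENNReal.ofReal (N * Y ^ m)⁻¹) (fun m => ENNReal.ofReal (N * Y ^ m)⁻¹) ?_ ?_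
    (M := kap F * ENNReal.ofReal M) (ENNReal.mul_ne_top kap_ne_top ENNReal.ofReal_ne_top) ?_
  · rw [← key, tsum_subtype {x : XN F n | degN x = k} ρ]
    exact tsum_congr fun x => by rw [Set.indicator_apply]; rfl
  · intro m x
    have h1 : ((hbox (tw1 (mvLN (x : XN F n).out) (m + 1))).card : ℝ) ≤
        Y * (hbox (tw1 (mvLN (x : XN F n).out) m)).card := by
      rw [hY]
      exact_mod_cast card_tw1_le (mvLN (x : XN F n).out) m
    rw [← ENNReal.ofReal_natCast, ← ENNReal.ofReal_natCast,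
      ← ENNReal.ofReal_mul (Nat.cast_nonneg _), ← ENNReal.ofReal_mul (Nat.cast_nonneg _)]
    refine ENNReal.ofReal_le_ofReal
      ((mul_le_mul_of_nonneg_right h1 (by positivity)).trans (le_of_eq ?_))
    rw [pow_succ]
    field_simp
  · intro x
    filter_upwards [NN_spec (mvLN (x : XN F n).out)] with m hm
    have hx : deg (idiv (GeneralLinearGroup.det (x : XN F n).out)) = k := x.2
    rw [NN_mvLN, hx, ← hN, mul_right_comm, pow_mul, ← hY] at hm
    rw [← ENNReal.ofReal_natCast, ← ENNReal.ofReal_mul (Nat.cast_nonneg _), hm,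
      mul_inv_cancel₀ (by positivity), ENNReal.ofReal_one]
  · rw [← ENNReal.ofReal_zero]
    exact ENNReal.tendsto_ofReal (tendsto_inv_atTop_zero.comp
      ((tendsto_pow_atTop_atTop_of_one_lt hY1).const_mul_atTop hN0))
  · intro m x
    have h1 : 1 ≤ (hbox (tw1 (mvLN (x : XN F n).out) m)).card :=
      Finset.card_pos.2 ⟨0, zero_mem_hbox _⟩
    rw [← add_one_mul, ← Nat.cast_succ, Nat.succ_eq_add_one, Nat.sub_add_cancel h1]
  · intro m
    simp only [← mul_assoc]
    rw [ENNReal.tsum_mul_right, htw m, mul_assoc, ← ENNReal.ofReal_mul' (by positivity),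
      mul_right_comm _ M, hN, hY, ← pow_mul, ← zpow_natCast, ← zpow_add₀ hq.ne', ← _root_.zpow_neg,
      ← zpow_add₀ hq.ne']
    rw [show k + n * (m * pp F) + n * cc F + -(k + n * cc F + ((n * pp F * m : ℕ) : ℤ)) = 0 by
      push_cast; ring, zpow_zero, one_mul]

theorem siegelN_one {ρ : XN F 1 → ℝ≥0∞} (hρ : IsBru (actN F 1) ρ) {k : ℤ} (hk : (dl F : ℤ) ∣ k) :
    ∑' x, (if degN x = k then ρ x else 0) = kap F := by
  have hd : ∀ E : Div F, detN (twN 1 (-E) (RC.mk (KN F 1) 1)) = -E := fun E => by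
    rw [detN_twN, detN_mk, map_one, idiv_one, zero_add, one_smul]
  have hb : Function.Bijective fun E : Div F => twN 1 (-E) (RC.mk (KN F 1) 1) := by
    refine ⟨fun E E' h => neg_injective ?_, fun x => ?_⟩
    · rw [← hd, ← hd E']
      exact congrArg detN h
    · obtain ⟨D, η, rfl⟩ := exists_mk_triN x
      refine ⟨-D 0, ?_⟩
      change twN 1 (- -D 0) _ = _
      rw [neg_neg, twN_mk, mul_one]
      congr 1
      refine Units.ext ?_
      ext1 i j
      rw [Subsingleton.elim i 0, Subsingleton.elim j 0, scN_val, triN_apply]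
      simp
  have hs : Function.Bijective (scN 1 : Fˣ → GL (Fin 1) F) := by
    refine ⟨fun u u' h => ?_, fun g => ⟨GeneralLinearGroup.det g, Units.ext ?_⟩⟩
    · simpa only [det_scN, pow_one] using congrArg GeneralLinearGroup.det h
    · ext1 i j
      rw [Subsingleton.elim i 0, Subsingleton.elim j 0, scN_val]
      simp
  have h1 : IsBru (actD F) fun E => ρ (twN 1 (-E) (RC.mk (KN F 1) 1)) := fun E => by
    rw [← hρ (twN 1 (-E) (RC.mk (KN F 1) 1)), ← (Equiv.ofBijective _ hs).tsum_eq]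
    refine tsum_congr fun u => ?_
    rw [actD_apply, Equiv.ofBijective_apply, actN_scN, ← twN_add, ← neg_add_rev]
  rw [← kap_eq h1 hk.neg_right, ← (Equiv.ofBijective _ hb).tsum_eq]
  refine tsum_congr fun E => ?_
  rw [Equiv.ofBijective_apply, degN, hd, map_neg]
  exact if_congr neg_eq_iff_eq_neg rfl rfl

variable (F) in
/-- the constant of the mass formula, `q^((1 - n^2) c) ζ(2) ⋯ ζ(n)` -/
noncomputable def sgN (n : ℕ) : ℝ :=
  qq F ^ ((1 - (n : ℤ) ^ 2) * cc F) * ∏ i ∈ Finset.Icc 2 n, ztN F i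

lemma sgN_pos : 0 < sgN F n :=
  mul_pos (zpow_pos (zero_lt_one.trans one_lt_qq) _)
    (Finset.prod_pos fun _ hi => zero_lt_one.trans_le (one_le_ztN (Finset.mem_Icc.1 hi).1))

lemma sgN_one : sgN F 1 = 1 := by simp [sgN]

lemma sgN_succ (hn : 1 ≤ n) :
    sgN F (n + 1) = qq F ^ (-(2 * (n : ℤ) + 1) * cc F) * (sgN F n * ztN F (n + 1)) := by
  have hq : 0 < qq F := zero_lt_one.trans one_lt_qq
  rw [sgN, sgN, Finset.prod_Icc_succ_top (by omega), ← mul_assoc, ← mul_assoc, ← mul_assoc,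
    ← zpow_add₀ hq.ne']
  congr 3
  push_cast
  ring

lemma sgN_two : sgN F 2 = qq F ^ (-3 * cc F) * zt F := by
  rw [sgN, Finset.Icc_self, Finset.prod_singleton, ztN_two]
  norm_num

lemma sgN_three : sgN F 3 = qq F ^ (-8 * cc F) * (zt F * ztN F 3) := by
  rw [sgN, Finset.prod_Icc_succ_top (by omega), Finset.Icc_self, Finset.prod_singleton, ztN_two]
  norm_num

lemma sgN_four : sgN F 4 = qq F ^ (-15 * cc F) * (zt F * ztN F 3 * ztN F 4) := by
  rw [sgN, Finset.prod_Icc_succ_top (by omega), Finset.prod_Icc_succ_top (by omega),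
    Finset.Icc_self, Finset.prod_singleton, ztN_two]
  norm_num

lemma sgN_five : sgN F 5 = qq F ^ (-24 * cc F) * (zt F * ztN F 3 * ztN F 4 * ztN F 5) := by
  rw [sgN, Finset.prod_Icc_succ_top (by omega), Finset.prod_Icc_succ_top (by omega),
    Finset.prod_Icc_succ_top (by omega), Finset.Icc_self, Finset.prod_singleton, ztN_two]
  norm_num

/-- the mass formula of Siegel -/
theorem siegelN (hn : 0 < n) {ρ : XN F n → ℝ≥0∞} (hρ : IsBru (actN F n) ρ) {k : ℤ}
    (hk : (dl F : ℤ) ∣ k) :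
    ∑' x, (if degN x = k then ρ x else 0) = kap F * ENNReal.ofReal (sgN F n) := by
  induction n, hn using Nat.le_induction generalizing k with
  | base => rw [siegelN_one hρ hk, sgN_one, ENNReal.ofReal_one, mul_one]
  | succ n hn ih =>
    have hq : 0 < qq F := zero_lt_one.trans one_lt_qq
    refine siegelN_of_pairs n.succ_pos sgN_pos.le (fun ρ hρ k hk => ?_) hρ hk
    rw [siegelN_pairs hn sgN_pos.le (fun β hβ k hk => ih hβ hk) hρ hk, sgN_succ hn, ← mul_assoc _ _
      (sgN F n * _), ← zpow_add₀ hq.ne']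
    congr 4
    push_cast
    ring

/-- the mass of the bundles of a degree that is not a multiple of `dl` vanishes -/
lemma siegelN_le (hn : 0 < n) {ρ : XN F n → ℝ≥0∞} (hρ : IsBru (actN F n) ρ) (k : ℤ) :
    ∑' x, (if degN x = k then ρ x else 0) ≤ kap F * ENNReal.ofReal (sgN F n) := by
  by_cases h : (dl F : ℤ) ∣ k
  · exact (siegelN hn hρ h).le
  · exact (ENNReal.tsum_eq_zero.2 fun x =>
      if_neg fun h' : degN x = k => h (h' ▸ dl_dvd _)).trans_le zero_le

/-- the `n` degrees that represent all classes modulo twists -/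
def parN (x : XN F n) : Prop := 0 ≤ degN x ∧ degN x < n * dl F

lemma parN_act (γ : GL (Fin n) F) (x : XN F n) : parN (actN F n γ x) ↔ parN x := by
  simp only [parN, degN_act]

theorem siegel_parN {ρ : XN F n → ℝ≥0∞} (hρ : IsBru (actN F n) ρ) :
    ∑' x, (if parN x then ρ x else 0) = ENNReal.ofReal (n * kapR F * sgN F n) := by
  have h0 : (0 : ℤ) < dl F := Nat.cast_pos.2 dl_pos
  have h1 : ∀ x : XN F n, (if parN x then ρ x else 0) =
      ∑ r ∈ Finset.range n, if degN x = r * dl F then ρ x else 0 := by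
    intro x
    obtain ⟨a, ha⟩ : (dl F : ℤ) ∣ degN x := dl_dvd _
    have h2 : ∀ r : ℕ, degN x = r * dl F ↔ a = r := fun r => by
      rw [ha, mul_comm, mul_left_inj' h0.ne']
    have h3 : parN x ↔ 0 ≤ a ∧ a < n := by
      rw [parN, ha, mul_comm, mul_nonneg_iff_of_pos_right h0, mul_lt_mul_iff_left₀ h0]
    simp only [h2, h3]
    split_ifs with h
    · obtain ⟨r, rfl⟩ := Int.eq_ofNat_of_zero_le h.1
      simp only [Nat.cast_inj, Finset.sum_ite_eq]
      rw [if_pos (Finset.mem_range.2 (by exact_mod_cast h.2))]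
    · refine (Finset.sum_eq_zero fun r hr => if_neg ?_).symm
      rintro rfl
      exact h ⟨Int.natCast_nonneg r, by exact_mod_cast Finset.mem_range.1 hr⟩
  simp only [h1]
  rw [Summable.tsum_finsetSum fun _ _ => ENNReal.summable, Finset.sum_congr rfl fun r hr =>
    siegelN ((Nat.zero_le r).trans_lt (Finset.mem_range.1 hr)) hρ (dvd_mul_left _ _),
    Finset.sum_const, Finset.card_range, nsmul_eq_mul, ← ofReal_kapR, mul_assoc,
    ← ENNReal.ofReal_mul kapR_pos.le, ENNReal.ofReal_mul (Nat.cast_nonneg n),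
    ENNReal.ofReal_natCast]

/-- for every `x` exactly one degree of a twist is allowed -/
theorem exists_parN (hn : 0 < n) (x : XN F n) :
    ∃ j : ℤ, (dl F : ℤ) ∣ j ∧ ∀ E : Div F, parN (twN n E x) ↔ deg E = j := by
  have h0 : (0 : ℤ) < dl F := Nat.cast_pos.2 dl_pos
  have hn' : (0 : ℤ) < n := Nat.cast_pos.2 hn
  obtain ⟨a, ha⟩ : (dl F : ℤ) ∣ degN x := dl_dvd _
  refine ⟨dl F * -(a / n), dvd_mul_right _ _, fun E => ?_⟩
  obtain ⟨e, he⟩ := dl_dvd E
  have h1 : degN (twN n E x) = (a + n * e) * dl F := by rw [degN_twN, ha, he]; ring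
  rw [parN, h1, he, mul_right_inj' h0.ne', mul_nonneg_iff_of_pos_right h0,
    mul_lt_mul_iff_left₀ h0]
  constructor
  · rintro ⟨h2, h3⟩
    have h4 := Int.ediv_eq_zero_of_lt h2 h3
    rw [Int.add_mul_ediv_left _ _ hn'.ne'] at h4
    linarith
  · rintro rfl
    have h2 := Int.emod_add_mul_ediv a n
    have h3 := Int.emod_nonneg a hn'.ne'
    have h4 := Int.emod_lt_of_pos a hn'
    constructor <;> linarith

/-- the bundles with a flag of the given degrees -/
def StratN (d : Fin n → ℤ) (x : XN F n) : Prop := ∃ (γ : GL (Fin n) F) (D : Fin n → Div F)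
  (η : Fin n → Fin n → A F), actN F n γ x = RC.mk (KN F n) (triN D η) ∧ ∀ i, deg (D i) = d i

lemma StratN_act (d : Fin n → ℤ) (γ : GL (Fin n) F) (x : XN F n) :
    StratN d (actN F n γ x) ↔ StratN d x := by
  constructor
  · rintro ⟨γ', D, η, h, h'⟩
    exact ⟨γ' * γ, D, η, by rwa [map_mul], h'⟩
  · rintro ⟨γ', D, η, h, h'⟩
    refine ⟨γ' * γ⁻¹, D, η, ?_, h'⟩
    rwa [← Equiv.Perm.mul_apply, ← map_mul, inv_mul_cancel_right]

lemma StratN.degN {d : Fin n → ℤ} {x : XN F n} (h : StratN d x) : degN x = ∑ i, d i := by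
  obtain ⟨γ, D, η, h, h'⟩ := h
  rw [← degN_act γ, h, degN_triN]
  exact Finset.sum_congr rfl fun i _ => h' i

variable (F) in
/-- the exponent of the mass of a stratum -/
def sxN (d : Fin n → ℤ) : ℤ := ∑ i, ∑ j, if j < i then d i - d j + cc F else 0

lemma sxN_succ (d : Fin (n + 1) → ℤ) : sxN F d = sxN F (fun i : Fin n => d i.castSucc) +
    (n * d (Fin.last n) - ∑ i : Fin n, d i.castSucc + n * cc F) := by
  simp [sxN, Fin.sum_univ_castSucc, (Fin.castSucc_lt_last _).not_gt, Finset.sum_add_distrib]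

lemma sxN_two (d : Fin 2 → ℤ) : sxN F d = d 1 - d 0 + cc F := by
  simp [sxN, Fin.sum_univ_succ]

lemma sxN_three (d : Fin 3 → ℤ) : sxN F d = 2 * (d 2 - d 0) + 3 * cc F := by
  simp [sxN, Fin.sum_univ_succ]
  ring

lemma sxN_four (d : Fin 4 → ℤ) : sxN F d = 3 * (d 3 - d 0) + (d 2 - d 1) + 6 * cc F := by
  simp [sxN, Fin.sum_univ_succ]
  ring

lemma sxN_five (d : Fin 5 → ℤ) : sxN F d = 4 * (d 4 - d 0) + 2 * (d 3 - d 1) + 10 * cc F := by
  simp [sxN, Fin.sum_univ_succ]
  ring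

/-- the mass of a stratum -/
theorem mass_stratN {ρ : XN F n → ℝ≥0∞} (hρ : IsBru (actN F n) ρ) (d : Fin n → ℤ) :
    ∑' x, (if StratN d x then ρ x else 0) ≤ kap F ^ n * ENNReal.ofReal (qq F ^ (-sxN F d)) := by
  have hq : 0 < qq F := zero_lt_one.trans one_lt_qq
  induction n with
  | zero =>
    have h1 : ∀ x : XN F 0, x = RC.mk (KN F 0) 1 := fun x => by
      obtain ⟨g, rfl⟩ := x.mk_surj
      exact congrArg _ (Units.ext (Subsingleton.elim _ _))
    rw [tsum_eq_single (RC.mk (KN F 0) 1) fun x h => absurd (h1 x) h]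
    simp only [sxN, Finset.univ_eq_empty, Finset.sum_empty, neg_zero, zpow_zero, pow_zero,
      ENNReal.ofReal_one, mul_one]
    split_ifs
    exacts [hρ.le_one _, zero_le]
  | succ n ih =>
    obtain ⟨β, hβ⟩ := exists_bruN (F := F) n
    obtain ⟨δ, hδ⟩ := exists_bruD (F := F)
    obtain ⟨σ, hσ⟩ := exists_bruUN (F := F) n
    have key := famN_le hρ _ sn_inj (τ := fun x => β (quoN x) * δ (-subN x) * σ x)
      (ψ := fun x => if StratN (fun i : Fin n => d i.castSucc) (quoN x) ∧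
        deg (subN x) = d (Fin.last n) then 1 else 0)
      (Ψ := fun x => if StratN d x then 1 else 0) (fun x => ?_) (fun t x => ?_) (fun x => ?_)
    · refine le_trans (le_of_eq (tsum_congr fun x => by simp)) (key.trans ?_)
      have h1 := sn_int hσ fun y Z => β y * δ (-Z) * if StratN (fun i : Fin n => d i.castSucc) y ∧
        deg Z = d (Fin.last n) then 1 else 0
      refine le_trans (le_of_eq ((tsum_congr fun x => mul_right_comm _ _ _).trans h1)) ?_
      have h2 : ∀ Z y, (β y * δ (-Z) * if StratN (fun i : Fin n => d i.castSucc) y ∧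
          deg Z = d (Fin.last n) then 1 else 0) *
          ENNReal.ofReal (qq F ^ (-(n * deg Z - degN y + n * cc F))) =
          (if deg (-Z) = -d (Fin.last n) then δ (-Z) else 0) *
          ((if StratN (fun i : Fin n => d i.castSucc) y then β y else 0) * ENNReal.ofReal
            (qq F ^ (-(n * d (Fin.last n) - ∑ i : Fin n, d i.castSucc + n * cc F)))) := by
        intro Z y
        rw [map_neg, if_congr neg_inj rfl rfl]
        by_cases h3 : StratN (fun i : Fin n => d i.castSucc) y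
        · by_cases h4 : deg Z = d (Fin.last n)
          · rw [if_pos ⟨h3, h4⟩, if_pos h3, if_pos h4, h3.degN, h4]
            ring
          · simp [h4]
        · simp [h3]
      simp only [h2]
      simp only [ENNReal.tsum_mul_left, ENNReal.tsum_mul_right]
      rw [sxN_succ, neg_add (sxN F _), zpow_add₀ hq.ne', ENNReal.ofReal_mul (zpow_pos hq _).le,
        pow_succ', mul_assoc, ← mul_assoc (kap F ^ n)]
      exact mul_le_mul' (((Equiv.neg (Div F)).tsum_eq fun Z =>
        if deg Z = -d (Fin.last n) then δ Z else 0).trans_le (kapN_ge hδ _))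
        (mul_le_mul_left (ih hβ _) _)
    · rw [ENNReal.tsum_prod', ← (hβ.prod hδ) (quoN x, -subN x)]
      refine tsum_congr fun p => ?_
      have h := sn_inner hσ (fun y Z => β y * δ (-Z)) (actN F (n + 1) (blkN p.1 p.2 0) x)
      rw [quoN_act, subN_act, neg_sub', sub_neg_eq_add] at h
      refine Eq.trans (tsum_congr fun y => ?_) h
      simp only [map_mul, Equiv.Perm.mul_apply]
    · simp only [map_mul, Equiv.Perm.mul_apply, UN_apply, quoN_act, subN_act, StratN_act, map_sub,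
        deg_dv, sub_zero]
    · by_cases h : StratN d x
      · obtain ⟨γ, D, η, h1, h2⟩ := h
        refine ⟨γ, (if_pos ?_).ge.trans' ?_⟩
        · rw [h1, triN_succ, quoN_mk, subN_mk, idiv_piD]
          exact ⟨⟨1, _, _, by rw [map_one, Equiv.Perm.one_apply], fun i => h2 _⟩, h2 _⟩
        · split_ifs <;> simp
      · exact ⟨1, by simp [h]⟩

/-- the weighted form used for the cusp -/
theorem tsum_le_stratN {ρ : XN F n → ℝ≥0∞} (hρ : IsBru (actN F n) ρ) (Ψ : XN F n → ℝ≥0∞)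
    (w : (Fin n → ℤ) → ℝ≥0∞) (h : ∀ x, Ψ x ≠ 0 → ∃ d, StratN d x ∧ Ψ x ≤ w d) :
    ∑' x, ρ x * Ψ x ≤ kap F ^ n * ∑' d, w d * ENNReal.ofReal (qq F ^ (-sxN F d)) := by
  calc ∑' x, ρ x * Ψ x ≤ ∑' x, ∑' d, w d * if StratN d x then ρ x else 0 := by
        refine ENNReal.tsum_le_tsum fun x => ?_
        by_cases h0 : Ψ x = 0
        · simp [h0]
        · obtain ⟨d, h1, h2⟩ := h x h0
          refine le_trans ?_ (ENNReal.le_tsum d)
          rw [if_pos h1, mul_comm]
          exact mul_le_mul_left h2 _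
    _ ≤ _ := by
        rw [ENNReal.tsum_comm, ← ENNReal.tsum_mul_left]
        refine ENNReal.tsum_le_tsum fun d => ?_
        rw [ENNReal.tsum_mul_left, mul_left_comm]
        exact mul_le_mul_right (mass_stratN hρ d) _

/-! Pairs of bundles -/

variable {m : ℕ}

theorem exists_bruNN (m n : ℕ) : ∃ τ, IsBru (prodAct (actN F m) (actN F n)) τ := by
  obtain ⟨ρ, hρ⟩ := exists_bruN (F := F) m
  obtain ⟨ρ', hρ'⟩ := exists_bruN (F := F) n
  exact ⟨_, hρ.prod hρ'⟩

/-- the mass formula for pairs -/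
theorem siegelNN (hm : 0 < m) (hn : 0 < n) {τ : XN F m × XN F n → ℝ≥0∞}
    (hτ : IsBru (prodAct (actN F m) (actN F n)) τ) {k l : ℤ} (hk : (dl F : ℤ) ∣ k)
    (hl : (dl F : ℤ) ∣ l) : ∑' x, (if degN x.1 = k ∧ degN x.2 = l then τ x else 0) =
      kap F ^ 2 * ENNReal.ofReal (sgN F m * sgN F n) := by
  obtain ⟨ρ, hρ⟩ := exists_bruN (F := F) m
  obtain ⟨ρ', hρ'⟩ := exists_bruN (F := F) n
  have h := hτ.tsum_prod hρ hρ' (fun x => if degN x = k then 1 else 0)
    (fun x => if degN x = l then 1 else 0) (fun g x => by rw [degN_act]) fun g x => by rw [degN_act]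
  simp only [mul_ite, mul_one, mul_zero] at h
  rw [siegelN hm hρ hk, siegelN hn hρ' hl, mul_mul_mul_comm, ← sq,
    ← ENNReal.ofReal_mul sgN_pos.le] at h
  rw [← h]
  refine tsum_congr fun x => ?_
  by_cases h1 : degN x.1 = k <;> by_cases h2 : degN x.2 = l <;> simp [h1, h2]

/-- the mass of a stratum of pairs -/
theorem mass_stratNN {τ : XN F m × XN F n → ℝ≥0∞} (hτ : IsBru (prodAct (actN F m) (actN F n)) τ)
    (d : Fin m → ℤ) (e : Fin n → ℤ) : ∑' x, (if StratN d x.1 ∧ StratN e x.2 then τ x else 0) ≤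
      kap F ^ (m + n) * ENNReal.ofReal (qq F ^ (-(sxN F d + sxN F e))) := by
  have hq : 0 < qq F := zero_lt_one.trans one_lt_qq
  obtain ⟨ρ, hρ⟩ := exists_bruN (F := F) m
  obtain ⟨ρ', hρ'⟩ := exists_bruN (F := F) n
  have h := hτ.tsum_prod hρ hρ' (fun x => if StratN d x then 1 else 0)
    (fun x => if StratN e x then 1 else 0) (fun g x => by simp only [StratN_act])
    fun g x => by simp only [StratN_act]
  simp only [mul_ite, mul_one, mul_zero] at h
  rw [neg_add, zpow_add₀ hq.ne', ENNReal.ofReal_mul (zpow_pos hq _).le, pow_add, mul_mul_mul_comm]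
  refine le_trans (le_of_eq (Eq.trans (tsum_congr fun x => ?_) h))
    (mul_le_mul' (mass_stratN hρ d) (mass_stratN hρ' e))
  by_cases h1 : StratN d x.1 <;> by_cases h2 : StratN e x.2 <;> simp [h1, h2]

/-- the weighted form for pairs -/
theorem tsum_le_stratNN {τ : XN F m × XN F n → ℝ≥0∞}
    (hτ : IsBru (prodAct (actN F m) (actN F n)) τ) (Ψ : XN F m × XN F n → ℝ≥0∞)
    (w : (Fin m → ℤ) × (Fin n → ℤ) → ℝ≥0∞)
    (h : ∀ x, Ψ x ≠ 0 → ∃ d : (Fin m → ℤ) × (Fin n → ℤ),
      StratN d.1 x.1 ∧ StratN d.2 x.2 ∧ Ψ x ≤ w d) :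
    ∑' x, τ x * Ψ x ≤ kap F ^ (m + n) *
      ∑' d, w d * ENNReal.ofReal (qq F ^ (-(sxN F d.1 + sxN F d.2))) := by
  calc ∑' x, τ x * Ψ x
      ≤ ∑' x, ∑' d, w d * if StratN d.1 x.1 ∧ StratN d.2 x.2 then τ x else 0 := by
        refine ENNReal.tsum_le_tsum fun x => ?_
        by_cases h0 : Ψ x = 0
        · simp [h0]
        · obtain ⟨d, h1, h2, h3⟩ := h x h0
          refine le_trans ?_ (ENNReal.le_tsum d)
          rw [if_pos ⟨h1, h2⟩, mul_comm]
          exact mul_le_mul_left h3 _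
    _ ≤ _ := by
        rw [ENNReal.tsum_comm, ← ENNReal.tsum_mul_left]
        refine ENNReal.tsum_le_tsum fun d => ?_
        rw [ENNReal.tsum_mul_left, mul_left_comm]
        exact mul_le_mul_right (mass_stratNN hτ d.1 d.2) _

end SelAvg.FF
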